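import Mathlib

/-!
# Norms and embeddings, without separability
-/

set_option autoImplicit false

namespace Pool.Agent.TG82

open Polynomial

/-- The norm of a finite purely inseparable extension. -/
theorem norm_of_pi {S L : Type*} [Field S] [Field L] [Algebra S L] [FiniteDimensional S L]
    [IsPurelyInseparable S L] (a : L) :
    algebraMap S L (Algebra.norm S a) = a ^ Module.finrank S L := by
  obtain ⟨q, hq⟩ := ExpChar.exists S
  obtain ⟨n, hn⟩ := IsPurelyInseparable.minpoly_eq_X_sub_C_pow S q a
  have hs : ((minpoly S a).map (algebraMap S L)).Splits := by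
    rw [hn]
    exact (Splits.X_sub_C a).pow _
  rw [Algebra.norm_eq_prod_roots L hs]
  have h1 : (minpoly S a).aroots L = Multiset.replicate (q ^ n) a := by
    rw [aroots_def, hn, roots_pow, roots_X_sub_C, Multiset.nsmul_singleton]
  have h2 : Module.finrank S (IntermediateField.adjoin S {a}) = q ^ n := by
    rw [IntermediateField.adjoin.finrank (Algebra.IsIntegral.isIntegral a),
      ← natDegree_map (algebraMap S L), hn, natDegree_pow, natDegree_X_sub_C, mul_one]
  rw [h1, Multiset.prod_replicate, ← pow_mul, ← h2, Module.finrank_mul_finrank]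

/-- The norm as a product over the embeddings, with the inseparable degree. -/
theorem norm_eq_prod {F L Ω : Type*} [Field F] [Field L] [Field Ω] [Algebra F L] [Algebra F Ω]
    [FiniteDimensional F L] [IsAlgClosed Ω] (a : L) :
    algebraMap F Ω (Algebra.norm F a) =
      (∏ᶠ σ : L →ₐ[F] Ω, σ a) ^ Field.finInsepDegree F L := by
  classical
  set S := separableClosure F L with hS
  have h2 : Module.finrank S L = Field.finInsepDegree F L := rfl
  have hfin : Fintype (L →ₐ[F] Ω) := Fintype.ofFinite _
  have hb : Function.Bijective
      (AlgHom.domRestrict (A := F) S (C := L) (D := Ω)) :=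
    IsPurelyInseparable.bijective_restrictDomain S L F Ω
  rw [← Algebra.norm_norm (R := F) (S := S), Algebra.norm_eq_prod_embeddings F Ω,
    finprod_eq_prod_of_fintype, ← Finset.prod_pow]
  symm
  have h3 : ∀ σ : L →ₐ[F] Ω, σ a ^ Field.finInsepDegree F L =
      (AlgHom.domRestrict (A := F) S (C := L) (D := Ω) σ) (Algebra.norm S a) := by
    intro σ
    rw [← h2, ← map_pow, ← norm_of_pi (S := S) a]
    rfl
  exact Fintype.prod_bijective (AlgHom.domRestrict (A := F) S (C := L) (D := Ω)) hb
    (fun σ => σ a ^ Field.finInsepDegree F L) (fun σ => σ (Algebra.norm S a)) h3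

end Pool.Agent.TG82
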