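import Mathlib

/-!
# Points of integral extensions over an algebraically closed field
-/

set_option autoImplicit false

namespace Pool.Agent.TG82

/-- A prime of an integral extension over the kernel of a `k`-point is the kernel of a
`k`-point. -/
theorem exists_of_prime {k B D : Type*} [Field k] [IsAlgClosed k] [CommRing B] [CommRing D]
    [Algebra k B] [Algebra k D] (φ : B →ₐ[k] D)
    (hint : ∀ d : D, IsIntegral φ.range d) (x : B →ₐ[k] k) (Q : Ideal D) [Q.IsPrime]
    (hQx : Q.comap φ = RingHom.ker x) :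
    ∃ y : D →ₐ[k] k, y.comp φ = x ∧ ∀ d, y d = 0 ↔ d ∈ Q := by
  let _ : Algebra B D := φ.toRingHom.toAlgebra
  have htow : IsScalarTower k B D := IsScalarTower.of_algebraMap_eq fun c => (φ.commutes c).symm
  have hint' : Algebra.IsIntegral B D := ⟨fun d => by
    obtain ⟨p, hp, hpd⟩ := hint d
    have hsurj : Function.Surjective φ.rangeRestrict := φ.rangeRestrict_surjective
    obtain ⟨q, hq, hqm⟩ := Polynomial.lifts_and_natDegree_eq_and_monic
      (f := (φ.rangeRestrict : B →+* φ.range)) (p := p)
      ((Polynomial.mem_lifts _).2 (Polynomial.map_surjective _ hsurj p)) hp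
    refine ⟨q, hqm.2, ?_⟩
    rw [← hpd, ← hq, Polynomial.eval₂_map]
    rfl⟩
  have hQint : Algebra.IsIntegral k (D ⧸ Q) := by
    refine ⟨fun d => ?_⟩
    obtain ⟨d, rfl⟩ := Ideal.Quotient.mk_surjective d
    obtain ⟨p, hp, hpd⟩ := hint'.isIntegral d
    refine ⟨p.map (x : B →+* k), hp.map _, ?_⟩
    rw [Polynomial.eval₂_map]
    have h2 : ((algebraMap k (D ⧸ Q)).comp (x : B →+* k)) =
        (Ideal.Quotient.mk Q).comp (algebraMap B D) := by
      refine RingHom.ext fun b => ?_
      have h3 : b - algebraMap k B (x b) ∈ RingHom.ker x := by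
        rw [RingHom.mem_ker, map_sub, AlgHom.commutes]
        exact sub_self _
      rw [← hQx, Ideal.mem_comap, map_sub, AlgHom.commutes] at h3
      have h4 := Ideal.Quotient.eq.2 h3
      exact h4.symm
    rw [h2, ← Polynomial.hom_eval₂, hpd, map_zero]
  have hbij : Function.Bijective (algebraMap k (D ⧸ Q)) :=
    IsAlgClosed.algebraMap_bijective_of_isIntegral
  let e : k ≃ₐ[k] (D ⧸ Q) := AlgEquiv.ofBijective (Algebra.ofId k (D ⧸ Q)) hbij
  refine ⟨(e.symm : (D ⧸ Q) →ₐ[k] k).comp (Ideal.Quotient.mkₐ k Q), ?_, fun d => ?_⟩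
  · refine AlgHom.ext fun b => ?_
    change e.symm (Ideal.Quotient.mk Q (φ b)) = x b
    rw [AlgEquiv.symm_apply_eq]
    have h3 : b - algebraMap k B (x b) ∈ RingHom.ker x := by
      rw [RingHom.mem_ker, map_sub, AlgHom.commutes]
      exact sub_self _
    rw [← hQx, Ideal.mem_comap, map_sub, AlgHom.commutes] at h3
    exact Ideal.Quotient.eq.2 h3
  · change e.symm (Ideal.Quotient.mk Q d) = 0 ↔ d ∈ Q
    rw [EmbeddingLike.map_eq_zero_iff, Ideal.Quotient.eq_zero_iff_mem]

/-- A `k`-point extends to an integral extension. -/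
theorem exists_extend {k B D : Type*} [Field k] [IsAlgClosed k] [CommRing B] [CommRing D]
    [IsDomain D] [Algebra k B] [Algebra k D] (φ : B →ₐ[k] D) (hφ : Function.Injective φ)
    (hint : ∀ d : D, IsIntegral φ.range d) (x : B →ₐ[k] k) : ∃ y : D →ₐ[k] k, y.comp φ = x := by
  let _ : Algebra B D := φ.toRingHom.toAlgebra
  have hint' : Algebra.IsIntegral B D := ⟨fun d => by
    obtain ⟨p, hp, hpd⟩ := hint d
    have hsurj : Function.Surjective φ.rangeRestrict := φ.rangeRestrict_surjective
    obtain ⟨q, hq, hqm⟩ := Polynomial.lifts_and_natDegree_eq_and_monic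
      (f := (φ.rangeRestrict : B →+* φ.range)) (p := p)
      ((Polynomial.mem_lifts _).2 (Polynomial.map_surjective _ hsurj p)) hp
    refine ⟨q, hqm.2, ?_⟩
    rw [← hpd, ← hq, Polynomial.eval₂_map]
    rfl⟩
  have hker : (RingHom.ker x).IsPrime := RingHom.ker_isPrime x
  have hk0 : RingHom.ker (algebraMap B D) ≤ RingHom.ker x := by
    have h1 : RingHom.ker (algebraMap B D) = ⊥ :=
      (RingHom.injective_iff_ker_eq_bot _).1 hφ
    rw [h1]
    exact bot_le
  obtain ⟨Q, hQ, hQx⟩ := Ideal.exists_ideal_over_prime_of_isIntegral_of_isDomain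
    (S := D) (RingHom.ker x) hk0
  obtain ⟨y, hy, -⟩ := exists_of_prime φ hint x Q hQx
  exact ⟨y, hy⟩

/-- Finitely many distinct points of a `k`-algebra take arbitrary values. -/
theorem exists_values {k B ι : Type*} [Field k] [CommRing B] [Algebra k B] [Finite ι]
    (x : ι → B →ₐ[k] k) (hx : Function.Injective x) (c : ι → k) : ∃ b : B, ∀ i, x i b = c i := by
  classical
  have := Fintype.ofFinite ι
  let φ : B →ₗ[k] (ι → k) := LinearMap.pi fun i => (x i).toLinearMap
  have hφ : Function.Surjective φ := by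
    rw [← LinearMap.range_eq_top]
    by_contra h
    obtain ⟨f, hf0, hf⟩ := Submodule.exists_le_ker_of_lt_top (LinearMap.range φ)
      (lt_top_iff_ne_top.2 h)
    have hli : LinearIndependent k (fun i => (x i : B → k)) := by
      have h1 := linearIndependent_monoidHom B k
      exact h1.comp (fun i => (x i : B →* k)) (fun i j hij => hx (AlgHom.ext fun b =>
        DFunLike.congr_fun hij b))
    rw [Fintype.linearIndependent_iff] at hli
    have h2 := hli (fun i => f (Pi.single i 1)) (by
      funext b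
      have h3 : f (φ b) = 0 := hf (LinearMap.mem_range_self φ b)
      rw [Finset.sum_apply]
      have h4 : φ b = ∑ i, (x i b) • (Pi.single i (1 : k) : ι → k) := by
        rw [pi_eq_sum_univ' (φ b)]
        rfl
      rw [h4, map_sum] at h3
      simp only [map_smul, smul_eq_mul] at h3
      simpa [mul_comm] using h3)
    apply hf0
    refine LinearMap.ext fun v => ?_
    rw [pi_eq_sum_univ' v, map_sum]
    simp [h2]
  obtain ⟨b, hb⟩ := hφ c
  exact ⟨b, fun i => congrFun hb i⟩

/-- Finitely many points of a `k`-algebra take arbitrary values. -/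
theorem exists_values' {k B : Type*} [Field k] [CommRing B] [Algebra k B]
    (X : Finset (B →ₐ[k] k)) (c : (B →ₐ[k] k) → k) : ∃ b : B, ∀ x ∈ X, x b = c x := by
  obtain ⟨b, hb⟩ := exists_values (fun y : X => (y : B →ₐ[k] k)) Subtype.val_injective
    (fun y => c y)
  exact ⟨b, fun x hx => hb ⟨x, hx⟩⟩

end Pool.Agent.TG82
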