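import Pool.Agent.Lib.TG_h80.HH
import Pool.Agent.Lib.TG_h82.Norm
import Pool.Agent.Lib.TG_h82.Pts

/-!
# TANK G, block C, J1: local degrees

`A ⊆ F` a `k`-algebra, integrally closed with field of fractions `F`, `L / F` finite, `k`
algebraically closed.  `C = ncl (up L A)` is the integral closure of `A` in `L`.  The local degree
of a `k`-point `x` of `C` is `rho A x = [L : F]_i #{σ : L → Ω over F with centre x}`.
-/

set_option autoImplicit false

namespace Pool.Agent.TG82

open Pool.Agent.TG (ncl up)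

universe u

section Maps

variable {k F L Ω : Type u} [Field k] [Field F] [Field L] [Field Ω] [Algebra k F] [Algebra k L]
  [Algebra k Ω] [Algebra F L] [Algebra F Ω] [IsScalarTower k F L] [IsScalarTower k F Ω]

theorem mem_ncl_up (A : Subalgebra k F) {a : F} (ha : a ∈ A) : algebraMap F L a ∈ ncl (up L A) :=
  TG.le_ncl _ ⟨a, ha, rfl⟩

/-- The inclusion of `A` in its integral closure in `L`. -/
def toC (L : Type u) [Field L] [Algebra k L] [Algebra F L] [IsScalarTower k F L]
    (A : Subalgebra k F) : A →ₐ[k] ncl (up L A) :=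
  ((IsScalarTower.toAlgHom k F L).comp A.val).codRestrict _ fun a => mem_ncl_up A a.2

@[simp] theorem toC_coe (A : Subalgebra k F) (a : A) :
    ((toC L A a : ncl (up L A)) : L) = algebraMap F L a := rfl

theorem map_mem_ncl_up (A : Subalgebra k F) (σ : L →ₐ[F] Ω) {a : L} (ha : a ∈ ncl (up L A)) :
    σ a ∈ ncl (up Ω A) := by
  obtain ⟨p, hp, hpa⟩ := ha
  have h1 : ∀ b ∈ up L A, σ b ∈ up Ω A := by
    rintro _ ⟨b, hb, rfl⟩
    exact ⟨b, hb, (σ.commutes b).symm⟩
  let φ : up L A →+* up Ω A := ((σ : L →+* Ω).comp (up L A).val.toRingHom).codRestrict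
    (up Ω A).toSubring (fun b => h1 b b.2)
  refine ⟨p.map φ, hp.map _, ?_⟩
  rw [Polynomial.eval₂_map]
  have h2 : (algebraMap (up Ω A) Ω).comp φ = (σ : L →+* Ω).comp (algebraMap (up L A) L) :=
    RingHom.ext fun b => rfl
  rw [h2]
  have h3 : (σ : L →+* Ω) (Polynomial.eval₂ (algebraMap (up L A) L) a p) = 0 := by
    rw [hpa, map_zero]
  rw [Polynomial.hom_eval₂] at h3
  exact h3

/-- The map induced by an embedding on the integral closures. -/
def mapC (A : Subalgebra k F) (σ : L →ₐ[F] Ω) : ncl (up L A) →ₐ[k] ncl (up Ω A) :=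
  (((σ.restrictScalars k)).comp (ncl (up L A)).val).codRestrict _
    fun a => map_mem_ncl_up A σ a.2

@[simp] theorem mapC_coe (A : Subalgebra k F) (σ : L →ₐ[F] Ω) (a : ncl (up L A)) :
    ((mapC A σ a : ncl (up Ω A)) : Ω) = σ a := rfl

theorem mapC_comp_toC (A : Subalgebra k F) (σ : L →ₐ[F] Ω) :
    (mapC A σ).comp (toC L A) = toC Ω A := by
  refine AlgHom.ext fun a => Subtype.ext ?_
  exact σ.commutes a

theorem mapC_injective (A : Subalgebra k F) (σ : L →ₐ[F] Ω) : Function.Injective (mapC A σ) := by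
  intro a b hab
  exact Subtype.ext (σ.toRingHom.injective (congrArg Subtype.val hab))

/-- A point of the integral closure in `L` extends to the integral closure in `Ω`. -/
theorem exists_extend_ncl [IsAlgClosed k] (A : Subalgebra k F) (σ : L →ₐ[F] Ω)
    (x : ncl (up L A) →ₐ[k] k) : ∃ Q : ncl (up Ω A) →ₐ[k] k, Q.comp (mapC A σ) = x := by
  refine exists_extend (mapC A σ) (mapC_injective A σ) (fun d => ?_) x
  obtain ⟨p, hp, hpd⟩ := d.2
  let φ : up Ω A →+* (mapC A σ).range := RingHom.codRestrict (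
    (algebraMap (up Ω A) Ω).codRestrict (ncl (up Ω A)).toSubring
      (fun b => TG.le_ncl _ b.2)) (mapC A σ).range.toSubring (by
      rintro ⟨_, b, hb, rfl⟩
      refine ⟨toC L A ⟨b, hb⟩, ?_⟩
      have h1 := DFunLike.congr_fun (mapC_comp_toC (Ω := Ω) A σ) ⟨b, hb⟩
      exact h1)
  refine ⟨p.map φ, hp.map _, ?_⟩
  rw [Polynomial.eval₂_map]
  apply Subtype.ext
  have h2 : (ncl (up Ω A)).val (Polynomial.eval₂ ((algebraMap (mapC A σ).range
      (ncl (up Ω A))).comp φ) d p) = 0 := by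
    have h3 := Polynomial.hom_eval₂ p ((algebraMap (mapC A σ).range
      (ncl (up Ω A))).comp φ) ((ncl (up Ω A)).val : ncl (up Ω A) →+* Ω) d
    refine h3.trans ?_
    exact hpd
  exact h2

/-- A point of `A` extends to the integral closure in `Ω`. -/
theorem exists_extend_toC [IsAlgClosed k] (A : Subalgebra k F) (z : A →ₐ[k] k) :
    ∃ Q : ncl (up Ω A) →ₐ[k] k, Q.comp (toC Ω A) = z := by
  refine exists_extend (toC Ω A) (fun a b hab => ?_) (fun d => ?_) z
  · exact Subtype.ext ((algebraMap F Ω).injective (congrArg Subtype.val hab))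
  obtain ⟨p, hp, hpd⟩ := d.2
  let φ : up Ω A →+* (toC Ω A).range := RingHom.codRestrict (
    (algebraMap (up Ω A) Ω).codRestrict (ncl (up Ω A)).toSubring
      (fun b => TG.le_ncl _ b.2)) (toC Ω A).range.toSubring (by
      rintro ⟨_, b, hb, rfl⟩
      exact ⟨⟨b, hb⟩, rfl⟩)
  refine ⟨p.map φ, hp.map _, ?_⟩
  rw [Polynomial.eval₂_map]
  apply Subtype.ext
  have h2 : (ncl (up Ω A)).val (Polynomial.eval₂ ((algebraMap (toC Ω A).range
      (ncl (up Ω A))).comp φ) d p) = 0 := by
    have h3 := Polynomial.hom_eval₂ p ((algebraMap (toC Ω A).range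
      (ncl (up Ω A))).comp φ) ((ncl (up Ω A)).val : ncl (up Ω A) →+* Ω) d
    refine h3.trans ?_
    exact hpd
  exact h2

end Maps

section Rho

variable {k F L Ω : Type u} [Field k] [Field F] [Field L] [Field Ω] [Algebra k F] [Algebra k L]
  [Algebra k Ω] [Algebra F L] [Algebra F Ω] [IsScalarTower k F L] [IsScalarTower k F Ω]
  [FiniteDimensional F L]

theorem norm_point [IsAlgClosed Ω] (A : Subalgebra k F) (Q : ncl (up Ω A) →ₐ[k] k)
    (a : ncl (up L A)) (n : A) (hn : (n : F) = Algebra.norm F (a : L)) :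
    Q (toC Ω A n) = (∏ᶠ σ : L →ₐ[F] Ω, Q (mapC A σ a)) ^ Field.finInsepDegree F L := by
  classical
  have hfin : Fintype (L →ₐ[F] Ω) := Fintype.ofFinite _
  have h1 : toC Ω A n = (∏ σ : L →ₐ[F] Ω, mapC A σ a) ^ Field.finInsepDegree F L := by
    apply Subtype.ext
    rw [toC_coe, hn, norm_eq_prod, finprod_eq_prod_of_fintype, SubmonoidClass.coe_pow,
      SubmonoidClass.coe_finsetProd]
    rfl
  rw [h1, map_pow, map_prod, finprod_eq_prod_of_fintype]

/-- The centre of an embedding. -/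
def cen (A : Subalgebra k F) (Q : ncl (up Ω A) →ₐ[k] k) (σ : L →ₐ[F] Ω) :
    ncl (up L A) →ₐ[k] k := Q.comp (mapC A σ)

omit [FiniteDimensional F L] in
theorem cen_over (A : Subalgebra k F) (Q : ncl (up Ω A) →ₐ[k] k) (σ : L →ₐ[F] Ω) :
    (cen A Q σ).comp (toC L A) = Q.comp (toC Ω A) := by
  rw [cen, AlgHom.comp_assoc, mapC_comp_toC]

/-- The number of embeddings with centre `x`, with the inseparable degree. -/
noncomputable def rhoQ (A : Subalgebra k F) (Q : ncl (up Ω A) →ₐ[k] k)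
    (x : ncl (up L A) →ₐ[k] k) : ℕ :=
  Field.finInsepDegree F L * Nat.card {σ : L →ₐ[F] Ω // cen A Q σ = x}

theorem norm_point' [IsAlgClosed Ω] (A : Subalgebra k F) (Q : ncl (up Ω A) →ₐ[k] k)
    (X : Finset (ncl (up L A) →ₐ[k] k)) (hX : ∀ σ : L →ₐ[F] Ω, cen A Q σ ∈ X)
    (a : ncl (up L A)) (n : A) (hn : (n : F) = Algebra.norm F (a : L)) :
    Q (toC Ω A n) = ∏ x ∈ X, x a ^ rhoQ A Q x := by
  classical
  have hfin : Fintype (L →ₐ[F] Ω) := Fintype.ofFinite _
  rw [norm_point A Q a n hn, finprod_eq_prod_of_fintype]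
  have h1 : ∀ σ : L →ₐ[F] Ω, Q (mapC A σ a) = cen A Q σ a := fun σ => rfl
  have h2 : ∏ σ : L →ₐ[F] Ω, Q (mapC A σ a) =
      ∏ x ∈ X, ∏ σ : L →ₐ[F] Ω with cen A Q σ = x, cen A Q σ a := by
    rw [Finset.prod_fiberwise_of_maps_to (fun σ _ => hX σ)]
    rfl
  rw [h2, ← Finset.prod_pow]
  refine Finset.prod_congr rfl fun x _ => ?_
  have h3 : ∏ σ : L →ₐ[F] Ω with cen A Q σ = x, cen A Q σ a =
      x a ^ (Finset.univ.filter fun σ : L →ₐ[F] Ω => cen A Q σ = x).card := by
    rw [Finset.prod_congr rfl (g := fun _ => x a), Finset.prod_const]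
    intro σ hσ
    rw [(Finset.mem_filter.1 hσ).2]
  rw [h3, ← pow_mul, rhoQ, mul_comm, Nat.card_eq_fintype_card, Fintype.card_subtype]

omit [FiniteDimensional F L] in
theorem isIntegral_of_ncl {A : Subalgebra k F} {a : L} (ha : a ∈ ncl (up L A)) :
    IsIntegral A a := by
  obtain ⟨p, hp, hpa⟩ := ha
  let φ : A →+* up L A := ((algebraMap F L).comp A.val.toRingHom).codRestrict
    (up L A).toSubring (fun b => ⟨b, b.2, rfl⟩)
  have hφ : Function.Surjective φ := by
    rintro ⟨_, b, hb, rfl⟩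
    exact ⟨⟨b, hb⟩, rfl⟩
  obtain ⟨q, hq, hqm⟩ := Polynomial.lifts_and_natDegree_eq_and_monic (f := φ) (p := p)
    ((Polynomial.mem_lifts _).2 (Polynomial.map_surjective _ hφ p)) hp
  refine ⟨q, hqm.2, ?_⟩
  rw [← hq, Polynomial.eval₂_map] at hpa
  exact hpa

omit [FiniteDimensional F L] in
/-- The norm of an element of the integral closure. -/
theorem exists_norm {A : Subalgebra k F} (hA : ∀ b : F, IsIntegral A b → b ∈ A)
    (a : ncl (up L A)) : ∃ n : A, (n : F) = Algebra.norm F (a : L) :=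
  ⟨⟨_, hA _ (Algebra.isIntegral_norm F (isIntegral_of_ncl a.2))⟩, rfl⟩

omit [FiniteDimensional F L] in
theorem unique_exp [IsAlgClosed k] {A : Subalgebra k F} (X : Finset (ncl (up L A) →ₐ[k] k))
    (r r' : (ncl (up L A) →ₐ[k] k) → ℕ)
    (h : ∀ a : ncl (up L A), ∏ x ∈ X, x a ^ r x = ∏ x ∈ X, x a ^ r' x) :
    ∀ x ∈ X, r x = r' x := by
  classical
  intro x hx
  by_contra hne
  have h1 : ∀ t : k, t ^ r x = t ^ r' x := by
    intro t
    obtain ⟨a, ha⟩ := exists_values' X (fun y => if y = x then t else 1)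
    have h2 : ∀ s : (ncl (up L A) →ₐ[k] k) → ℕ, ∏ y ∈ X, y a ^ s y = t ^ s x := by
      intro s
      rw [Finset.prod_eq_single_of_mem x hx]
      · rw [ha x hx, if_pos rfl]
      · intro y hy hyx
        rw [ha y hy, if_neg hyx, one_pow]
    rw [← h2 r, ← h2 r', h a]
  have hinf : Infinite k := IsAlgClosed.instInfinite
  have h3 : (Polynomial.X ^ r x - Polynomial.X ^ r' x : Polynomial k) = 0 :=
    Polynomial.funext fun t => by simp [h1 t]
  have h4 : (Polynomial.X ^ r x : Polynomial k) = Polynomial.X ^ r' x := sub_eq_zero.1 h3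
  have h5 := congrArg Polynomial.natDegree h4
  rw [Polynomial.natDegree_X_pow, Polynomial.natDegree_X_pow] at h5
  exact hne h5

/-- Every point is the centre of an embedding. -/
theorem exists_cen [IsAlgClosed k] [IsAlgClosed Ω] {A : Subalgebra k F}
    (hA : ∀ b : F, IsIntegral A b → b ∈ A)
    (Q : ncl (up Ω A) →ₐ[k] k) (x : ncl (up L A) →ₐ[k] k)
    (hx : x.comp (toC L A) = Q.comp (toC Ω A)) : ∃ σ : L →ₐ[F] Ω, cen A Q σ = x := by
  classical
  have hfin : Fintype (L →ₐ[F] Ω) := Fintype.ofFinite _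
  by_contra hcon
  push Not at hcon
  let X : Finset (ncl (up L A) →ₐ[k] k) := Finset.univ.image (cen A Q)
  have hxX : x ∉ X := by
    intro h
    obtain ⟨σ, -, hσ⟩ := Finset.mem_image.1 h
    exact hcon σ hσ
  obtain ⟨a, ha⟩ := exists_values' (insert x X) (fun y => if y = x then 0 else 1)
  have hax : x a = 0 := by
    rw [ha x (Finset.mem_insert_self _ _), if_pos rfl]
  have hay : ∀ y ∈ X, y a = 1 := by
    intro y hy
    have hyx : y ≠ x := by
      rintro rfl
      exact hxX hy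
    rw [ha y (Finset.mem_insert_of_mem hy), if_neg hyx]
  obtain ⟨n, hn⟩ := exists_norm hA a
  have h1 : Q (toC Ω A n) = 1 := by
    rw [norm_point' A Q X (fun σ => Finset.mem_image_of_mem _ (Finset.mem_univ σ)) a n hn]
    exact Finset.prod_eq_one fun y hy => by rw [hay y hy, one_pow]
  have halg : Algebra.IsAlgebraic F L := inferInstance
  let σ₀ : L →ₐ[F] Ω := IsAlgClosed.lift
  obtain ⟨Q₀, hQ₀⟩ := exists_extend_ncl A σ₀ x
  have h2 : Q₀ (toC Ω A n) = 0 := by
    rw [norm_point A Q₀ a n hn, finprod_eq_prod_of_fintype]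
    have h3 : Q₀ (mapC A σ₀ a) = 0 := by
      have h4 : Q₀ (mapC A σ₀ a) = x a := DFunLike.congr_fun hQ₀ a
      rw [h4, hax]
    rw [Finset.prod_eq_zero (Finset.mem_univ σ₀) h3, zero_pow]
    exact NeZero.ne _
  have h5 : Q₀ (toC Ω A n) = Q (toC Ω A n) := by
    have h6 : Q₀.comp (toC Ω A) = Q.comp (toC Ω A) := by
      rw [← hx, ← hQ₀, AlgHom.comp_assoc, mapC_comp_toC]
    exact DFunLike.congr_fun h6 n
  rw [h2, h1] at h5
  exact zero_ne_one h5

/-- The points over a point are finite in number. -/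
theorem finite_points [IsAlgClosed k] {A : Subalgebra k F}
    (hA : ∀ b : F, IsIntegral A b → b ∈ A) (z : A →ₐ[k] k) :
    {x : ncl (up L A) →ₐ[k] k | x.comp (toC L A) = z}.Finite := by
  classical
  by_cases hne : {x : ncl (up L A) →ₐ[k] k | x.comp (toC L A) = z}.Nonempty
  · obtain ⟨x, hx⟩ := hne
    let Ω := AlgebraicClosure L
    obtain ⟨Q, hQ⟩ := exists_extend_ncl A (IsScalarTower.toAlgHom F L Ω) x
    refine (Set.finite_range (cen A Q)).subset ?_
    intro y hy
    obtain ⟨σ, hσ⟩ := exists_cen hA Q y (by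
      rw [hy, ← hx, ← hQ, AlgHom.comp_assoc, mapC_comp_toC])
    exact ⟨σ, hσ⟩
  · rw [Set.not_nonempty_iff_eq_empty.1 hne]
    exact Set.finite_empty

/-- The extension of a point to the integral closure in the algebraic closure. -/
noncomputable def extPt [IsAlgClosed k] (A : Subalgebra k F) (x : ncl (up L A) →ₐ[k] k) :
    ncl (up (AlgebraicClosure L) A) →ₐ[k] k :=
  (exists_extend_ncl A (IsScalarTower.toAlgHom F L (AlgebraicClosure L)) x).choose

omit [FiniteDimensional F L] in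
theorem extPt_spec [IsAlgClosed k] (A : Subalgebra k F) (x : ncl (up L A) →ₐ[k] k) :
    (extPt A x).comp (mapC A (IsScalarTower.toAlgHom F L (AlgebraicClosure L))) = x :=
  (exists_extend_ncl A (IsScalarTower.toAlgHom F L (AlgebraicClosure L)) x).choose_spec

/-- **The local degree of a point.** -/
noncomputable def rho [IsAlgClosed k] (A : Subalgebra k F) (x : ncl (up L A) →ₐ[k] k) : ℕ :=
  rhoQ A (extPt A x) x

/-- The local degree may be computed with any point of any algebraically closed extension. -/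
theorem rho_eq [IsAlgClosed k] [IsAlgClosed Ω] {A : Subalgebra k F}
    (hA : ∀ b : F, IsIntegral A b → b ∈ A) (Q : ncl (up Ω A) →ₐ[k] k)
    (x : ncl (up L A) →ₐ[k] k) (hx : x.comp (toC L A) = Q.comp (toC Ω A)) :
    rho A x = rhoQ A Q x := by
  classical
  let X : Finset (ncl (up L A) →ₐ[k] k) := (finite_points hA (x.comp (toC L A))).toFinset
  have hxX : x ∈ X := (finite_points hA (x.comp (toC L A))).mem_toFinset.2 rfl
  have hxQ₀ : (extPt A x).comp (toC (AlgebraicClosure L) A) = x.comp (toC L A) := by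
    conv_rhs => rw [← extPt_spec A x]
    rw [AlgHom.comp_assoc, mapC_comp_toC]
  have h0 : ∀ σ, cen A (extPt A x) σ ∈ X := fun σ =>
    (finite_points hA (x.comp (toC L A))).mem_toFinset.2 (by
      change (cen A (extPt A x) σ).comp (toC L A) = _
      rw [cen_over, hxQ₀])
  have h1 : ∀ σ : L →ₐ[F] Ω, cen A Q σ ∈ X := fun σ =>
    (finite_points hA (x.comp (toC L A))).mem_toFinset.2 (by
      change (cen A Q σ).comp (toC L A) = _
      rw [cen_over, hx])
  refine unique_exp X (rhoQ A (extPt A x)) (rhoQ A Q) (fun a => ?_) x hxX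
  obtain ⟨n, hn⟩ := exists_norm hA a
  rw [← norm_point' A (extPt A x) X h0 a n hn, ← norm_point' A Q X h1 a n hn]
  have h2 := DFunLike.congr_fun hxQ₀ n
  have h3 := DFunLike.congr_fun hx n
  exact h2.trans h3

theorem rho_pos [IsAlgClosed k] (A : Subalgebra k F) (x : ncl (up L A) →ₐ[k] k) :
    0 < rho A x := by
  have hfin : Finite (L →ₐ[F] AlgebraicClosure L) := inferInstance
  refine Nat.mul_pos (NeZero.pos _) ?_
  have : Nonempty {σ : L →ₐ[F] AlgebraicClosure L // cen A (extPt A x) σ = x} :=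
    ⟨⟨_, extPt_spec A x⟩⟩
  exact Nat.card_pos

/-- **The norm formula.** -/
theorem norm_rho [IsAlgClosed k] {A : Subalgebra k F}
    (hA : ∀ b : F, IsIntegral A b → b ∈ A) (z : A →ₐ[k] k)
    (X : Finset (ncl (up L A) →ₐ[k] k)) (hX : ∀ x, x ∈ X ↔ x.comp (toC L A) = z)
    (a : ncl (up L A)) (n : A) (hn : (n : F) = Algebra.norm F (a : L)) :
    z n = ∏ x ∈ X, x a ^ rho A x := by
  classical
  obtain ⟨Q, hQ⟩ := exists_extend_toC (Ω := AlgebraicClosure L) A z
  have h1 : ∀ σ : L →ₐ[F] AlgebraicClosure L, cen A Q σ ∈ X := fun σ =>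
    (hX _).2 (by rw [cen_over, hQ])
  rw [← hQ]
  refine (norm_point' A Q X h1 a n hn).trans (Finset.prod_congr rfl fun x hx => ?_)
  rw [rho_eq hA Q x (by rw [(hX x).1 hx, hQ])]

/-- The sum of the local degrees is the degree. -/
theorem sum_rho [IsAlgClosed k] {A : Subalgebra k F}
    (hA : ∀ b : F, IsIntegral A b → b ∈ A) (z : A →ₐ[k] k)
    (X : Finset (ncl (up L A) →ₐ[k] k)) (hX : ∀ x, x ∈ X ↔ x.comp (toC L A) = z) :
    ∑ x ∈ X, rho A x = Module.finrank F L := by
  classical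
  obtain ⟨Q, hQ⟩ := exists_extend_toC (Ω := AlgebraicClosure L) A z
  have h1 : ∀ σ : L →ₐ[F] AlgebraicClosure L, cen A Q σ ∈ X := fun σ =>
    (hX _).2 (by rw [cen_over, hQ])
  have hfin : Fintype (L →ₐ[F] AlgebraicClosure L) := Fintype.ofFinite _
  have h2 : ∀ x ∈ X, rho A x = Field.finInsepDegree F L *
      (Finset.univ.filter fun σ : L →ₐ[F] AlgebraicClosure L => cen A Q σ = x).card := by
    intro x hx
    rw [rho_eq hA Q x (by rw [(hX x).1 hx, hQ]), rhoQ, Nat.card_eq_fintype_card,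
      Fintype.card_subtype]
  rw [Finset.sum_congr rfl h2, ← Finset.mul_sum,
    ← Finset.card_eq_sum_card_fiberwise (fun σ _ => h1 σ), Finset.card_univ, mul_comm,
    ← Field.finSepDegree_mul_finInsepDegree, ← Nat.card_eq_fintype_card,
    Field.finSepDegree_eq_of_isAlgClosed F L (AlgebraicClosure L)]

/-- Uniqueness of the local degrees. -/
theorem rho_unique [IsAlgClosed k] {A : Subalgebra k F}
    (hA : ∀ b : F, IsIntegral A b → b ∈ A) (z : A →ₐ[k] k)
    (X : Finset (ncl (up L A) →ₐ[k] k)) (hX : ∀ x, x ∈ X ↔ x.comp (toC L A) = z)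
    (r : (ncl (up L A) →ₐ[k] k) → ℕ)
    (h : ∀ (a : ncl (up L A)) (n : A), (n : F) = Algebra.norm F (a : L) →
      z n = ∏ x ∈ X, x a ^ r x) : ∀ x ∈ X, rho A x = r x := by
  refine unique_exp X (rho A) r fun a => ?_
  obtain ⟨n, hn⟩ := exists_norm hA a
  rw [← h a n hn, norm_rho hA z X hX a n hn]

end Rho

end Pool.Agent.TG82
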