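import Pool.Agent.Lib.TG_h82.FlagI
import Pool.Agent.Lib.TGJ.DivCorr
import Pool.Agent.Lib.TGJ.Congr

/-!
# TANK G, block C, row R3: the flag formula F1
-/

set_option autoImplicit false

namespace Pool.Agent.TGJ

open Pool.Agent.TG (ncl up)
open Pool.Agent.TG82 (Lies wbar resI toI toI_coe flag_icf)
open Pool.Agent.TGJ88 (locx)
open Pool.Agent.TGh4 (Disc ordV)

universe u

section

variable {k : Type u} [Field k] {K : Type u} [Field K] [Algebra k K]

/-- The integral closure of `k[f]` is finite over the polynomial ring. -/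
theorem toI_finite [PerfectField k] (hL : (⊤ : IntermediateField k K).FG) {n : ℕ} (f : Fin n → K)
    (halg : ∀ a : K, IsAlgebraic (kf k f) a) : (toI (k := k) f).toRingHom.Finite := by
  obtain ⟨T, hT⟩ : ∃ T : Finset (icf k f), ∀ a : icf k f, ∃ o : icf k f → kf k f,
      a = ∑ c ∈ T, ⟨o c, kf_le_icf f (o c).2⟩ * c :=
    Pool.Agent.TGJ88.exists_gens hL (kf k f) (icf_fg_kf f) halg
  let _ : Algebra (MvPolynomial (Fin n) k) (icf k f) := (toI f).toRingHom.toAlgebra
  change Module.Finite (MvPolynomial (Fin n) k) (icf k f)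
  have h0 : (⊤ : Submodule (MvPolynomial (Fin n) k) (icf k f)) ≤ Submodule.span _
      (T : Set (icf k f)) := by
    rintro a -
    obtain ⟨o, ho⟩ := hT a
    rw [ho]
    refine Submodule.sum_mem _ fun c hc => ?_
    obtain ⟨p, hp⟩ := Pool.Agent.TG82.mem_kf.1 (o c).2
    have h2 : (⟨o c, kf_le_icf f (o c).2⟩ : icf k f) = toI f p :=
      Subtype.ext (hp.symm.trans (toI_coe f p).symm)
    have h3 : (⟨o c, kf_le_icf f (o c).2⟩ : icf k f) * c = p • c := by
      rw [h2, Algebra.smul_def]
      rfl
    rw [h3]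
    exact Submodule.smul_mem _ _ (Submodule.subset_span hc)
  exact ⟨⟨T, top_le_iff.1 h0⟩⟩

variable {S : Subalgebra k K} {res : S →ₐ[k] k}

/-- Properness of the residues. -/
theorem properV_of_cons {m : ℕ} {g : S} {w : Fin m → S}
    (hP : Proper S.val res (Fin.cons g w : Fin (m + 1) → S)) {V : ValuationSubring K}
    (hg : g ∈ cen S V) : ProperV S V res w := by
  refine ⟨fun i => ?_, fun Q hQ hk hw => ?_⟩
  · have h1 := hP.1 i.succ
    rwa [Fin.cons_succ] at h1
  · refine hP.2 Q hQ ?_ fun i => ?_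
    · have h1 : RingHom.ker S.val = ⊥ := by
        rw [← RingHom.injective_iff_ker_eq_bot]
        exact Subtype.val_injective
      rw [h1]
      exact bot_le
    · refine Fin.cases ?_ (fun j => ?_) i
      · rw [Fin.cons_zero]
        apply hk
        exact Ideal.algebraMap_residueField_eq_zero.2 hg
      · rw [Fin.cons_succ]
        exact hw j

theorem finsum_eq_finsum_mem {α : Type*} (G : α → ℕ) (s : Set α) (h : ∀ a, a ∉ s → G a = 0) :
    ∑ᶠ a, G a = ∑ᶠ a ∈ s, G a := by
  refine finsum_congr fun a => ?_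
  by_cases ha : a ∈ s
  · simp [ha]
  · simp [ha, h a ha]

theorem finsum_mem_eq_finsum_mem {α : Type*} (G : α → ℕ) (s t : Set α) (hts : t ⊆ s)
    (h : ∀ a, a ∈ s → a ∉ t → G a = 0) : ∑ᶠ a ∈ s, G a = ∑ᶠ a ∈ t, G a := by
  refine finsum_congr fun a => ?_
  by_cases ha : a ∈ t
  · simp [ha, hts ha]
  · by_cases hs : a ∈ s
    · simp [ha, hs, h a hs ha]
    · simp [ha, hs]

/-- **F1**, the flag formula, for the family of parameters. -/
theorem f1_aux [IsAlgClosed k] (hN : NPt S res) {m : ℕ} (htr : Algebra.trdeg k K = (m + 1 : ℕ))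
    (f : Fin (m + 1) → S) (hP : Proper S.val res f) :
    Rho S.val res f = ∑ᶠ V ∈ {V : ValuationSubring K | IsDiv S V},
      (ordV V (f 0 : K)).toNat * RhoV S V res (fun i => f i.succ) := by
  classical
  obtain ⟨x, hx0, hxd, hxS, -⟩ := hN.exists_pt hP
  rw [hN.Rho_eq hP hxd]
  have hind := hN.algebraicIndependent htr hP
  obtain ⟨hF, e, hpos, hchar, hsum⟩ := flag_icf hind
    (hN.finiteDimensional hP) (toI_finite hN.fg_top _ (hN.isAlgebraic hP)) x hx0
  rw [hsum]
  have hX0 : toI (fun i => (f i : K)) (MvPolynomial.X 0) = icf.X (k := k) (fun i => (f i : K)) 0 :=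
    MvPolynomial.aeval_X _ _
  -- the prime divisor of `Q`
  have hV : ∀ Q : {Q : PrimeSpectrum (icf k fun i => (f i : K)) // Lies _ Q},
      (Q.1.asIdeal ≤ RingHom.ker x) → ∃ V : ValuationSubring K, IsDiv S V ∧
        ∀ c : icf k fun i => (f i : K), c ∈ Q.1.asIdeal ↔ V.valuation (c : K) < 1 := by
    intro Q hQ
    refine hN.exists_isDiv_of_prime htr hP hxS 0 Q.1.asIdeal (fun c hc => hQ hc) fun a ha => ?_
    obtain ⟨p, hp⟩ := Pool.Agent.TG82.mem_kf.1 ha
    have h1 : a = toI _ p := Subtype.ext (hp.symm.trans (toI_coe _ p).symm)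
    rw [h1, Q.2 p]
    constructor
    · rintro ⟨r, rfl⟩
      refine ⟨_, Pool.Agent.TG82.mem_kf.2 ⟨r, rfl⟩, ?_⟩
      rw [toI_coe, map_mul, MvPolynomial.aeval_X]
    · rintro ⟨b, hb, hab⟩
      obtain ⟨r, rfl⟩ := Pool.Agent.TG82.mem_kf.1 hb
      refine ⟨r, hind ?_⟩
      rw [toI_coe] at hab
      rw [hab, map_mul, MvPolynomial.aeval_X]
  have hdef : ∀ Q : {Q : PrimeSpectrum (icf k fun i => (f i : K)) // Lies _ Q},
      icf.X (k := k) (fun i => (f i : K)) 0 ∈ Q.1.asIdeal := by
    intro Q
    rw [← hX0]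
    exact (Q.2 _).2 dvd_rfl
  choose v hv hvQ using hV
  let E : {Q : PrimeSpectrum (icf k fun i => (f i : K)) // Lies _ Q} → ValuationSubring K :=
    fun Q => if h : Q.1.asIdeal ≤ RingHom.ker x then v Q h else ⊤
  have hE : ∀ Q (h : Q.1.asIdeal ≤ RingHom.ker x), E Q = v Q h := fun Q h => dif_pos h
  rw [← finsum_eq_sum_of_fintype, finsum_eq_finsum_mem _
    {Q : {Q : PrimeSpectrum (icf k fun i => (f i : K)) // Lies _ Q} |
      Q.1.asIdeal ≤ RingHom.ker x}]
  · rw [finsum_mem_eq_finsum_mem _ {V : ValuationSubring K | IsDiv S V}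
      {V : ValuationSubring K | IsDiv S V ∧ f 0 ∈ cen S V} (fun V hV => hV.1)]
    · refine finsum_mem_eq_of_bijOn E ⟨?_, ?_, ?_⟩ ?_
      · intro Q hQ
        rw [hE Q hQ]
        refine ⟨hv Q hQ, ?_⟩
        rw [(hv Q hQ).mem_cen]
        exact (hvQ Q hQ _).1 (hdef Q)
      · intro Q hQ Q' hQ' h
        rw [hE Q hQ, hE Q' hQ'] at h
        apply Subtype.ext
        apply PrimeSpectrum.ext
        ext c
        rw [hvQ Q hQ, hvQ Q' hQ', h]
      · rintro V ⟨hV, hV0⟩
        have hV' := hV.icf hxS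
        have h0 : V.valuation (f 0 : K) < 1 := (hV.mem_cen _).1 hV0
        have hL : Lies (fun i => (f i : K)) ⟨cen (icf k fun i => (f i : K)) V, inferInstance⟩ := by
          intro p
          change toI _ p ∈ cen (icf k fun i => (f i : K)) V ↔ _
          rw [hV'.mem_cen, toI_coe]
          constructor
          · intro h
            obtain ⟨b, hb, hab⟩ := hN.dvd_of_isDiv htr hP hV 0 hV0
              (Pool.Agent.TG82.mem_kf.2 ⟨p, rfl⟩) h
            obtain ⟨r, rfl⟩ := Pool.Agent.TG82.mem_kf.1 hb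
            refine ⟨r, hind ?_⟩
            rw [hab, map_mul, MvPolynomial.aeval_X]
          · rintro ⟨r, rfl⟩
            rw [map_mul, MvPolynomial.aeval_X, map_mul]
            refine mul_lt_one_of_lt_of_le h0 ?_
            rw [V.valuation_le_one_iff, ← toI_coe]
            exact hV'.le _ (toI _ r).2
        have hle : cen (icf k fun i => (f i : K)) V ≤ RingHom.ker x := by
          intro c hc
          rw [RingHom.mem_ker]
          by_contra h1
          have h2 : (c : K)⁻¹ ∈ S := hxS.le (Pool.Agent.TGJ88.inv_mem_locx h1)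
          have h3 := (V.valuation_le_one_iff _).2 (hV.le _ h2)
          have h4 := (hV'.mem_cen c).1 hc
          have h5 : (c : K) ≠ 0 := Pool.Agent.TGJ88.ne_zero_of_ev h1
          have h6 : V.valuation (c : K) * V.valuation (c : K)⁻¹ = 1 := by
            rw [← map_mul, mul_inv_cancel₀ h5, map_one]
          have h7 := mul_lt_one_of_lt_of_le h4 h3
          rw [h6] at h7
          exact lt_irrefl _ h7
        refine ⟨⟨⟨cen (icf k fun i => (f i : K)) V, inferInstance⟩, hL⟩, hle, ?_⟩
        rw [hE _ hle]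
        refine (hv _ hle).eq_of_icf hxS hV fun c hc => ?_
        rw [← hvQ _ hle ⟨c, hc⟩]
        exact hV'.mem_cen ⟨c, hc⟩
      · intro Q hQ
        rw [hE Q hQ]
        congr 1
        · -- the order
          have h1 : ∀ N : ℕ, N ≤ e Q ↔ (N : ℤ) ≤ ordV (v Q hQ) (f 0 : K) := fun N =>
            (hchar Q N).symm.trans ((hv Q hQ).ord_iff hxS Q.1.asIdeal (hvQ Q hQ)
              (g := icf.X (k := k) (fun i => (f i : K)) 0) (hN.param_ne_zero htr hP 0) N)
          have h2 := (h1 (e Q)).1 le_rfl
          have h3 : ¬ ((e Q + 1 : ℕ) : ℤ) ≤ ordV (v Q hQ) (f 0 : K) := by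
            rw [← h1]
            omega
          omega
        · have hinf : Infinite k := IsAlgClosed.instInfinite
          have h1 := rhoV_corr (rhoCongr k) hxS hxd Q.1.asIdeal (v Q hQ) (hv Q hQ) (hvQ Q hQ)
            (fun i => f i.succ) (fun i => icf.X (fun i => (f i : K)) i.succ) (fun i => rfl)
            (fun i => by
              refine Fin.cases ?_ (fun j => ?_) i
              · exact Or.inl (hdef Q)
              · exact Or.inr ⟨j, rfl⟩)
          refine Eq.trans ?_ h1.symm
          refine finsum_congr fun x' => ?_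
          have h2 : x' ∈ {x' : icf k (wbar (fun i => (f i : K)) Q.1) →ₐ[k] k |
              Over0 (wbar (fun i => (f i : K)) Q.1) x' ∧ x'.comp (resI Q.2) = x} ↔
              x' ∈ {x' : icf k (fun i : Fin m => algebraMap (icf k fun i => (f i : K))
                  Q.1.asIdeal.ResidueField (icf.X (fun i => (f i : K)) i.succ)) →ₐ[k] k |
                Over0 _ x' ∧ ∀ c : icf k fun i => (f i : K), ∃ h : algebraMap _
                  Q.1.asIdeal.ResidueField c ∈ icf k (fun i : Fin m => algebraMap
                    (icf k fun i => (f i : K)) Q.1.asIdeal.ResidueField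
                      (icf.X (fun i => (f i : K)) i.succ)), x' ⟨_, h⟩ = x c} := by
            refine and_congr_right fun _ => ?_
            constructor
            · intro h c
              exact ⟨Pool.Agent.TG82.res_mem Q.2 c, DFunLike.congr_fun h c⟩
            · intro h
              refine AlgHom.ext fun c => ?_
              obtain ⟨h3, h4⟩ := h c
              exact h4
          simp only [h2]
          rfl
    · intro V hV h
      have h1 : f 0 ∉ cen S V := fun h2 => h ⟨hV, h2⟩
      obtain ⟨π, hπ⟩ := hV.disc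
      have h2 : ordV V (f 0 : K) = 0 := by
        refine Pool.Agent.TGh4.ordV_eq hπ ?_
        rw [(hV.notMem_cen _).1 h1, zpow_zero]
      rw [h2, Int.toNat_zero, zero_mul]
  · intro Q hQ
    have h1 : {x' : icf k (wbar (fun i => (f i : K)) Q.1) →ₐ[k] k |
        Over0 (wbar (fun i => (f i : K)) Q.1) x' ∧ x'.comp (resI Q.2) = x} = ∅ := by
      rw [Set.eq_empty_iff_forall_notMem]
      rintro x' ⟨-, h⟩
      apply hQ
      intro c hc
      rw [RingHom.mem_ker, ← h, AlgHom.comp_apply]
      have h2 : resI Q.2 c = 0 := Subtype.ext (Ideal.algebraMap_residueField_eq_zero.2 hc)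
      rw [h2, map_zero]
    rw [h1, finsum_mem_empty, mul_zero]

/-- **F1**, the flag formula. -/
theorem f1 (k K : Type u) [Field k] [Field K] [Algebra k K] : F1 k K := by
  intro halg S res hN m htr g w hP
  refine ⟨fun V _ hg => properV_of_cons hP hg, ?_⟩
  have h1 := f1_aux hN htr (Fin.cons g w) hP
  have h2 : (fun i : Fin m => (Fin.cons g w : Fin (m + 1) → S) i.succ) = w := by
    funext i
    rw [Fin.cons_succ]
  rw [h2, Fin.cons_zero] at h1
  exact h1

end

end Pool.Agent.TGJ
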