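import Pool.Agent.Lib.TG_h82.Rho

/-!
# TANK G, block C: the flag formula, formal part

If the norm modulo a prime is the product of the norms of the residues, then the local degree is
the sum of the local degrees of the residues.
-/

set_option autoImplicit false

namespace Pool.Agent.TG82

open Pool.Agent.TG (ncl up)

universe u

section Flag

variable {k F L : Type u} [Field k] [Field F] [Field L] [Algebra k F] [Algebra k L]
  [Algebra F L] [IsScalarTower k F L] [FiniteDimensional F L]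

/-- The flag formula, formal part. -/
theorem rho_flag [IsAlgClosed k] {A : Subalgebra k F} (hA : ∀ b : F, IsIntegral A b → b ∈ A)
    {ι : Type*} (I : Finset ι) (κ : ι → Type u) [∀ i, Field (κ i)] [∀ i, Algebra k (κ i)]
    {F₁ : Type u} [Field F₁] [Algebra k F₁] [∀ i, Algebra F₁ (κ i)]
    [∀ i, IsScalarTower k F₁ (κ i)] [∀ i, FiniteDimensional F₁ (κ i)]
    {A₁ : Subalgebra k F₁} (hA₁ : ∀ b : F₁, IsIntegral A₁ b → b ∈ A₁)
    (q : A →ₐ[k] A₁) (r : ∀ i, ncl (up L A) →ₐ[k] ncl (up (κ i) A₁))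
    (hr : ∀ i, (r i).comp (toC L A) = (toC (κ i) A₁).comp q) (e : ι → ℕ)
    (hN : ∀ (a : ncl (up L A)) (n : A), (n : F) = Algebra.norm F (a : L) →
      ((q n : A₁) : F₁) = ∏ i ∈ I, Algebra.norm F₁ ((r i a : ncl (up (κ i) A₁)) : κ i) ^ e i)
    (z : A →ₐ[k] k) (z₁ : A₁ →ₐ[k] k) (hz : z₁.comp q = z)
    (X₁ : ∀ i, Finset (ncl (up (κ i) A₁) →ₐ[k] k))
    (hX₁ : ∀ i x', x' ∈ X₁ i ↔ x'.comp (toC (κ i) A₁) = z₁)
    (x : ncl (up L A) →ₐ[k] k) (hx : x.comp (toC L A) = z) [DecidableEq (ncl (up L A) →ₐ[k] k)] :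
    rho A x = ∑ i ∈ I, e i * ∑ x' ∈ X₁ i with x'.comp (r i) = x, rho A₁ x' := by
  classical
  let X : Finset (ncl (up L A) →ₐ[k] k) := (finite_points hA z).toFinset
  have hX : ∀ y, y ∈ X ↔ y.comp (toC L A) = z := fun y => (finite_points hA z).mem_toFinset
  refine rho_unique hA z X hX
    (fun x => ∑ i ∈ I, e i * ∑ x' ∈ X₁ i with x'.comp (r i) = x, rho A₁ x') ?_ x ((hX x).2 hx)
  intro a n hn
  have h1 : q n = ∏ i ∈ I, (exists_norm hA₁ (r i a)).choose ^ e i := by
    apply Subtype.ext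
    rw [hN a n hn, SubmonoidClass.coe_finsetProd]
    refine Finset.prod_congr rfl fun i _ => ?_
    rw [SubmonoidClass.coe_pow, (exists_norm hA₁ (r i a)).choose_spec]
  have h2 : z n = z₁ (q n) := by rw [← hz]; rfl
  have h3 : ∀ i, z₁ (exists_norm hA₁ (r i a)).choose = ∏ y ∈ X, y a ^
      (∑ x' ∈ X₁ i with x'.comp (r i) = y, rho A₁ x') := by
    intro i
    rw [norm_rho hA₁ z₁ (X₁ i) (hX₁ i) (r i a) _ (exists_norm hA₁ (r i a)).choose_spec]
    have h4 : ∀ x' ∈ X₁ i, x'.comp (r i) ∈ X := by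
      intro x' hx'
      rw [hX, AlgHom.comp_assoc, hr, ← AlgHom.comp_assoc, (hX₁ i x').1 hx', hz]
    rw [← Finset.prod_fiberwise_of_maps_to h4]
    refine Finset.prod_congr rfl fun y _ => ?_
    rw [Finset.prod_congr rfl (g := fun x' => y a ^ rho A₁ x'), Finset.prod_pow_eq_pow_sum]
    intro x' hx'
    have h5 : x'.comp (r i) = y := (Finset.mem_filter.1 hx').2
    rw [← h5]
    rfl
  rw [h2, h1, map_prod]
  simp only [map_pow, h3]
  simp only [← Finset.prod_pow, ← pow_mul]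
  rw [Finset.prod_comm]
  refine Finset.prod_congr rfl fun y _ => ?_
  rw [Finset.prod_pow_eq_pow_sum]
  congr 1
  exact Finset.sum_congr rfl fun i _ => mul_comm _ _

end Flag

end Pool.Agent.TG82
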