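import Pool.Agent.Lib.TG_h82.NormI

/-!
# TANK G, block C: the flag formula for the points of the integral closure of `k[f]`
-/

set_option autoImplicit false

namespace Pool.Agent.TG82

open Pool.Agent.TG (ncl up)
open Pool.Agent.TGJ (kf icf Over0 icfE)

universe u

section FI

variable {k : Type u} [Field k] {L : Type u} [Field L] [Algebra k L] {n : ℕ} {f : Fin n → L}
  (hf : AlgebraicIndependent k f)

/-- The quotients of `An`. -/
theorem An_frac (g : Fn k n) : ∃ a ∈ An k n, ∃ b ∈ An k n, b ≠ 0 ∧ g = a / b := by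
  obtain ⟨a, b, hb, rfl⟩ := IsFractionRing.div_surjective (A := MvPolynomial (Fin n) k) g
  exact ⟨_, ⟨a, rfl⟩, _, ⟨b, rfl⟩, IsFractionRing.to_map_ne_zero_of_mem_nonZeroDivisors hb, rfl⟩

theorem kf_eq_up :
    let _ := algF f hf
    let _ := towF f hf
    kf k f = up L (An k n) := (up_An f hf).symm

/-- Points over the origin. -/
theorem over0_iff_zn :
    let _ := algF f hf
    let _ := towF f hf
    ∀ y : ncl (up L (An k n)) →ₐ[k] k, Over0 f (y.comp (icfE (kf_eq_up hf)).toAlgHom) ↔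
      y.comp (toC L (An k n)) = zn k n := by
  intro i1 i2 y
  have h0 : ∀ i, (y.comp (icfE (kf_eq_up hf)).toAlgHom) (TGJ.icf.X f i) =
      y.comp (toC L (An k n)) (toAn k n (MvPolynomial.X i)) := by
    intro i
    refine congrArg y (Subtype.ext ?_)
    change f i = liftF f hf (algebraMap (MvPolynomial (Fin n) k) (Fn k n) (MvPolynomial.X i))
    rw [liftF_coe, MvPolynomial.aeval_X]
  constructor
  · intro h
    have h1 : (y.comp (toC L (An k n))).comp (toAn k n).toAlgHom =
        MvPolynomial.aeval (fun _ => (0 : k)) := by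
      apply MvPolynomial.algHom_ext
      intro i
      rw [MvPolynomial.aeval_X]
      exact (h0 i).symm.trans (h i)
    refine AlgHom.ext fun a => ?_
    obtain ⟨p, rfl⟩ := (toAn k n).surjective a
    rw [zn_toAn, ← h1]
    rfl
  · intro h i
    rw [h0, h, zn_toAn, MvPolynomial.aeval_X]

/-- Sums of local degrees. -/
theorem sum_points [IsAlgClosed k]
    (hfd : FiniteDimensional (IntermediateField.adjoin k (Set.range f)) L) :
    let _ := algF f hf
    let _ := towF f hf
    let _ := finiteDimensional_F hf hfd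
    ∀ {C : Type u} [CommRing C] [Algebra k C] (φ : C →ₐ[k] icf k f) (x : C →ₐ[k] k)
      (X : Finset (ncl (up L (An k n)) →ₐ[k] k))
      (_ : ∀ y, y ∈ X ↔ y.comp (toC L (An k n)) = zn k n)
      [DecidablePred fun y : ncl (up L (An k n)) →ₐ[k] k =>
        y.comp ((icfE (kf_eq_up hf)).toAlgHom.comp φ) = x],
      ∑ y ∈ X with y.comp ((icfE (kf_eq_up hf)).toAlgHom.comp φ) = x, rho (An k n) y =
        ∑ᶠ x' ∈ {x' : icf k f →ₐ[k] k | Over0 f x' ∧ x'.comp φ = x}, TGJ.rho f x' := by
  intro i1 i2 i3 C _ _ φ x X hX _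
  have h1 : ∑ y ∈ X with y.comp ((icfE (kf_eq_up hf)).toAlgHom.comp φ) = x,
      rho (An k n) y = ∑ᶠ y ∈ {y : ncl (up L (An k n)) →ₐ[k] k |
        y.comp (toC L (An k n)) = zn k n ∧
          y.comp ((icfE (kf_eq_up hf)).toAlgHom.comp φ) = x}, rho (An k n) y := by
    rw [← finsum_mem_coe_finset]
    refine finsum_congr fun y => ?_
    have h2 : y ∈ ((X.filter fun y => y.comp ((icfE (kf_eq_up hf)).toAlgHom.comp φ) = x :
        Finset (ncl (up L (An k n)) →ₐ[k] k)) : Set (ncl (up L (An k n)) →ₐ[k] k)) ↔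
        y ∈ {y : ncl (up L (An k n)) →ₐ[k] k | y.comp (toC L (An k n)) = zn k n ∧
          y.comp ((icfE (kf_eq_up hf)).toAlgHom.comp φ) = x} := by
      rw [Finset.mem_coe, Finset.mem_filter, hX]
      exact Iff.rfl
    simp only [h2]
  rw [h1]
  refine finsum_mem_eq_of_bijOn (fun y => y.comp (icfE (kf_eq_up hf)).toAlgHom) ⟨?_, ?_, ?_⟩ ?_
  · rintro y ⟨hy1, hy2⟩
    exact ⟨(over0_iff_zn hf y).2 hy1, hy2⟩
  · intro y _ z _ hyz
    refine AlgHom.ext fun a => ?_
    have h2 := DFunLike.congr_fun hyz ((icfE (kf_eq_up hf)).symm a)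
    have h3 : (icfE (kf_eq_up hf)) ((icfE (kf_eq_up hf)).symm a) = a :=
      (icfE (kf_eq_up hf)).apply_symm_apply a
    have h4 : y (icfE (kf_eq_up hf) ((icfE (kf_eq_up hf)).symm a)) =
      z (icfE (kf_eq_up hf) ((icfE (kf_eq_up hf)).symm a)) := h2
    rwa [h3] at h4
  · rintro x' ⟨h2, h3⟩
    have h4 : (x'.comp (icfE (kf_eq_up hf)).symm.toAlgHom).comp
        (icfE (kf_eq_up hf)).toAlgHom = x' :=
      AlgHom.ext fun a => congrArg x' ((icfE (kf_eq_up hf)).symm_apply_apply a)
    refine ⟨x'.comp (icfE (kf_eq_up hf)).symm.toAlgHom, ⟨?_, ?_⟩, h4⟩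
    · refine (over0_iff_zn hf _).1 ?_
      change Over0 f ((x'.comp (icfE (kf_eq_up hf)).symm.toAlgHom).comp
        (icfE (kf_eq_up hf)).toAlgHom)
      rw [h4]
      exact h2
    · rw [← AlgHom.comp_assoc, h4]
      exact h3
  · rintro y ⟨hy1, -⟩
    exact (TGJ.link_rho (L := L) An_ic (kf_eq_up hf) An_frac y
      ((over0_iff_zn hf y).2 hy1)).symm

end FI

section Flag

variable {k : Type u} [Field k] {K : Type u} [Field K] [Algebra k K] {m : ℕ}
  {f : Fin (m + 1) → K} (hf : AlgebraicIndependent k f)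

include hf in
/-- **The flag formula** for the points of the integral closure of `k[f]`. -/
theorem flag_icf [IsAlgClosed k]
    (hfd : FiniteDimensional (IntermediateField.adjoin k (Set.range f)) K)
    (hfin : (toI (k := k) f).toRingHom.Finite) (x : icf k f →ₐ[k] k) (hx : Over0 f x) :
    ∃ (_ : Fintype {Q : PrimeSpectrum (icf k f) // Lies f Q})
      (e : {Q : PrimeSpectrum (icf k f) // Lies f Q} → ℕ),
      (∀ Q, 0 < e Q) ∧
      (∀ Q n, (∃ s, s ∉ Q.1.asIdeal ∧ s * TGJ.icf.X f 0 ∈ Q.1.asIdeal ^ n) ↔ n ≤ e Q) ∧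
      TGJ.rho f x = ∑ Q, e Q * ∑ᶠ x' ∈ {x' : icf k (wbar f Q.1) →ₐ[k] k |
        Over0 (wbar f Q.1) x' ∧ x'.comp (resI Q.2) = x}, TGJ.rho (wbar f Q.1) x' := by
  classical
  let i1 := algF f hf
  let i2 := towF f hf
  let i3 := fun Q : {Q : PrimeSpectrum (icf k f) // Lies f Q} => algR Q
  have i4 : ∀ Q : {Q : PrimeSpectrum (icf k f) // Lies f Q},
      IsScalarTower k (Fn k m) Q.1.asIdeal.ResidueField := fun Q => towF _ (wbar_indep Q.2)
  obtain ⟨hfinQ, hfinκ, e, hpos, hchar, hnorm⟩ := norm_icf hf hfd hfin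
  have hfd' : FiniteDimensional (Fn k (m + 1)) K := finiteDimensional_F hf hfd
  let hFt : Fintype {Q : PrimeSpectrum (icf k f) // Lies f Q} := Fintype.ofFinite _
  refine ⟨hFt, e, hpos, hchar, ?_⟩
  have hup := kf_eq_up hf
  have hupQ : ∀ Q : {Q : PrimeSpectrum (icf k f) // Lies f Q},
      kf k (wbar f Q.1) = up Q.1.asIdeal.ResidueField (An k m) := fun Q =>
    kf_eq_up (wbar_indep Q.2)
  let r : ∀ Q : {Q : PrimeSpectrum (icf k f) // Lies f Q}, ncl (up K (An k (m + 1))) →ₐ[k]
      ncl (up Q.1.asIdeal.ResidueField (An k m)) := fun Q =>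
    (icfE (hupQ Q)).toAlgHom.comp ((resI Q.2).comp (icfE hup).symm.toAlgHom)
  -- the point
  let x₁ : ncl (up K (An k (m + 1))) →ₐ[k] k := x.comp (icfE hup).symm.toAlgHom
  have hx₁ : x₁.comp (icfE hup).toAlgHom = x :=
    AlgHom.ext fun a => congrArg x ((icfE hup).symm_apply_apply a)
  have hx₁z : x₁.comp (toC K (An k (m + 1))) = zn k (m + 1) := by
    refine (over0_iff_zn hf x₁).1 ?_
    change Over0 f (x₁.comp (icfE hup).toAlgHom)
    rw [hx₁]
    exact hx
  have hlink : TGJ.rho f x = rho (An k (m + 1)) x₁ := by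
    have h1 := TGJ.link_rho (L := K) An_ic hup An_frac x₁ (by rw [hx₁]; exact hx)
    rwa [hx₁] at h1
  let X₁ : ∀ Q : {Q : PrimeSpectrum (icf k f) // Lies f Q},
      Finset (ncl (up Q.1.asIdeal.ResidueField (An k m)) →ₐ[k] k) := fun Q =>
    (finite_points (L := Q.1.asIdeal.ResidueField) An_ic (zn k m)).toFinset
  have hflag := rho_flag (L := K) (A := An k (m + 1)) An_ic Finset.univ
    (fun Q : {Q : PrimeSpectrum (icf k f) // Lies f Q} => Q.1.asIdeal.ResidueField)
    (F₁ := Fn k m) (A₁ := An k m) An_ic (qA k m) r ?_ e ?_ (zn k (m + 1)) (zn k m)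
    (zn_comp_qA m) X₁ (fun Q x' => Set.Finite.mem_toFinset _) x₁ hx₁z
  · rw [hlink, hflag]
    refine Finset.sum_congr rfl fun Q _ => ?_
    congr 1
    have hfdQ : FiniteDimensional (IntermediateField.adjoin k (Set.range (wbar f Q.1)))
        Q.1.asIdeal.ResidueField := by
      let ψ : Fn k m →+* IntermediateField.adjoin k (Set.range (wbar f Q.1)) :=
        (liftF (wbar f Q.1) (wbar_indep Q.2)).toRingHom.codRestrict
          (IntermediateField.adjoin k (Set.range (wbar f Q.1))) fun y => by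
            rw [← fieldRange_liftF (wbar_indep Q.2)]
            exact ⟨y, rfl⟩
      let _ : Algebra (Fn k m) (IntermediateField.adjoin k (Set.range (wbar f Q.1))) :=
        ψ.toAlgebra
      have h2 : IsScalarTower (Fn k m) (IntermediateField.adjoin k (Set.range (wbar f Q.1)))
          Q.1.asIdeal.ResidueField := IsScalarTower.of_algebraMap_eq fun _ => rfl
      exact Module.Finite.of_restrictScalars_finite (Fn k m) _ _
    have h1 := sum_points (wbar_indep Q.2) hfdQ
      ((resI Q.2).comp (icfE hup).symm.toAlgHom) x₁ (X₁ Q) (fun y => Set.Finite.mem_toFinset _)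
    refine h1.trans ?_
    refine finsum_congr fun x' => ?_
    have h2 : x' ∈ {x' : icf k (wbar f Q.1) →ₐ[k] k | Over0 (wbar f Q.1) x' ∧
        x'.comp ((resI Q.2).comp (icfE hup).symm.toAlgHom) = x₁} ↔
        x' ∈ {x' : icf k (wbar f Q.1) →ₐ[k] k |
          Over0 (wbar f Q.1) x' ∧ x'.comp (resI Q.2) = x} := by
      refine and_congr_right fun _ => ?_
      constructor
      · intro h
        have h3 := congrArg (fun z : ncl (up K (An k (m + 1))) →ₐ[k] k =>
          z.comp (icfE hup).toAlgHom) h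
        refine AlgHom.ext fun a => ?_
        have h4 := DFunLike.congr_fun h3 a
        have h5 : (icfE hup).symm (icfE hup a) = a := (icfE hup).symm_apply_apply a
        have h6 : x' (resI Q.2 ((icfE hup).symm (icfE hup a))) =
          x ((icfE hup).symm (icfE hup a)) := h4
        rwa [h5] at h6
      · intro h
        rw [← AlgHom.comp_assoc, h]
    simp only [h2]
  · intro Q
    refine AlgHom.ext fun a => ?_
    obtain ⟨p, rfl⟩ := (toAn k (m + 1)).surjective a
    apply Subtype.ext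
    change algebraMap (icf k f) Q.1.asIdeal.ResidueField
      ((icfE hup).symm (toC K (An k (m + 1)) (toAn k (m + 1) p))) =
      liftF (wbar f Q.1) (wbar_indep Q.2) ((qA k m (toAn k (m + 1) p) : An k m) : Fn k m)
    rw [qA_toAn, toAn_coe, liftF_coe, ← res_toI Q.2]
    congr 1
    apply Subtype.ext
    rw [toI_coe]
    exact liftF_coe f hf p
  · intro a n hn
    obtain ⟨p, rfl⟩ := (toAn k (m + 1)).surjective n
    have h1 := hnorm ((icfE hup).symm a) p hn
    rw [finprod_eq_prod_of_fintype] at h1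
    rw [qA_toAn, toAn_coe]
    exact h1

end Flag

end Pool.Agent.TG82
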