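import Pool.Agent.Lib.TG_h5.NormRes

/-!
# The norm modulo a principal prime
-/

set_option autoImplicit false

namespace Pool.Agent.TG82

open IsDedekindDomain IsLocalRing

section Dvr

/-- The localisation of a noetherian domain at a principal prime is a discrete valuation ring. -/
theorem dvr_of_prime {A : Type*} [CommRing A] [IsDomain A] [IsNoetherianRing A] {π : A}
    (hπ : Prime π) [hp : (Ideal.span {π}).IsPrime] :
    IsDiscreteValuationRing (Localization.AtPrime (Ideal.span {π})) := by
  have h0 : Ideal.span {π} ≠ ⊥ := by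
    rw [Ne, Ideal.span_singleton_eq_bot]
    exact hπ.ne_zero
  have hinj : Function.Injective (algebraMap A (Localization.AtPrime (Ideal.span {π}))) :=
    IsLocalization.injective _ (Ideal.primeCompl_le_nonZeroDivisors (Ideal.span {π}))
  have hnf : ¬ IsField (Localization.AtPrime (Ideal.span {π})) := by
    rw [isField_iff_maximalIdeal_eq, ← IsLocalization.AtPrime.map_eq_maximalIdeal (Ideal.span {π}),
      Ideal.map_eq_bot_iff_of_injective hinj]
    exact h0
  have h1 := (IsDiscreteValuationRing.TFAE (Localization.AtPrime (Ideal.span {π})) hnf).out 0 4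
  rw [h1, ← IsLocalization.AtPrime.map_eq_maximalIdeal (Ideal.span {π}), Ideal.map_span,
    Set.image_singleton]
  exact ⟨⟨_, rfl⟩⟩

end Dvr

section DvrNorm

variable {R S F₁ : Type*} {ι : Type*} {κ : ι → Type*} [CommRing R] [IsDomain R]
  [IsDiscreteValuationRing R] [CommRing S] [IsDedekindDomain S] [Algebra R S] [Module.Finite R S]
  [FaithfulSMul R S] [Field F₁] [Algebra R F₁] [∀ i, Field (κ i)] [∀ i, Algebra S (κ i)]
  [∀ i, Algebra F₁ (κ i)] [∀ i, Algebra R (κ i)] [∀ i, IsScalarTower R F₁ (κ i)]
  [∀ i, IsScalarTower R S (κ i)]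

/-- The residue of the norm, with the residue fields transported. -/
theorem norm_dvr (hF : Function.Surjective (algebraMap R F₁))
    (hκ : ∀ i, Function.Surjective (algebraMap S (κ i)))
    (f : ι ≃ HeightOneSpectrum S) (hf : ∀ i s, s ∈ (f i).asIdeal ↔ algebraMap S (κ i) s = 0)
    (a : S) :
    {i : ι | multiplicity (f i).asIdeal
      (Ideal.map (algebraMap R S) (maximalIdeal R)) ≠ 0}.Finite ∧
    algebraMap R F₁ (Algebra.norm R a) = ∏ᶠ i, Algebra.norm F₁ (algebraMap S (κ i) a) ^
      multiplicity (f i).asIdeal (Ideal.map (algebraMap R S) (maximalIdeal R)) := by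
  have hker : RingHom.ker (algebraMap R F₁) = maximalIdeal R :=
    IsLocalRing.eq_maximalIdeal (RingHom.ker_isMaximal_of_surjective _ hF)
  have hkerS : ∀ i, RingHom.ker (algebraMap S (κ i)) = (f i).asIdeal := fun i => by
    ext s
    exact (hf i s).symm
  let e₁ : ResidueField R ≃+* F₁ :=
    (Ideal.quotEquivOfEq hker.symm).trans (RingHom.quotientKerEquivOfSurjective hF)
  have he₁ : ∀ r : R, e₁ (residue R r) = algebraMap R F₁ r := fun r => rfl
  have hint : Algebra.IsIntegral R S := inferInstance
  have hlies : ∀ v : HeightOneSpectrum S, v.asIdeal.LiesOver (maximalIdeal R) := fun v => by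
    have h1 : v.asIdeal.IsMaximal := v.isMaximal
    have h2 : (v.asIdeal.comap (algebraMap R S)).IsMaximal :=
      Ideal.isMaximal_comap_of_isIntegral_of_isMaximal v.asIdeal
    exact ⟨(IsLocalRing.eq_maximalIdeal h2).symm⟩
  let alg : ∀ v : HeightOneSpectrum S, Algebra (ResidueField R) (S ⧸ v.asIdeal) := fun v =>
    have := hlies v
    inferInstanceAs (Algebra (R ⧸ maximalIdeal R) (S ⧸ v.asIdeal))
  have tow : ∀ v : HeightOneSpectrum S, IsScalarTower R (ResidueField R) (S ⧸ v.asIdeal) :=
    fun v =>
    have := hlies v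
    inferInstanceAs (IsScalarTower R (R ⧸ maximalIdeal R) (S ⧸ v.asIdeal))
  obtain ⟨hfin, hprod⟩ := Pool.Agent.TGh5.norm_residue (R := R) a
  refine ⟨?_, ?_⟩
  · exact hfin.preimage (f.injective.injOn)
  have h1 := congrArg e₁ hprod
  rw [he₁] at h1
  have h2 := MulEquiv.map_finprod e₁.toMulEquiv (fun v : HeightOneSpectrum S =>
    (Algebra.norm (ResidueField R) (Ideal.Quotient.mk v.asIdeal a)) ^
      multiplicity v.asIdeal (Ideal.map (algebraMap R S) (maximalIdeal R)))
  refine h1.trans (h2.trans ?_)
  rw [← finprod_comp_equiv f]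
  refine finprod_congr fun i => ?_
  let e₂ : (S ⧸ (f i).asIdeal) ≃+* κ i :=
    (Ideal.quotEquivOfEq (hkerS i).symm).trans (RingHom.quotientKerEquivOfSurjective (hκ i))
  have he₂ : ∀ s : S, e₂ (Ideal.Quotient.mk (f i).asIdeal s) = algebraMap S (κ i) s :=
    fun s => rfl
  have h3 := Algebra.norm_eq_of_equiv_equiv (A₁ := ResidueField R) (B₁ := S ⧸ (f i).asIdeal)
    (A₂ := F₁) (B₂ := κ i) e₁ e₂ (by
      apply Ideal.Quotient.ringHom_ext
      ext r
      change algebraMap F₁ (κ i) (algebraMap R F₁ r) =
        e₂ (algebraMap (ResidueField R) (S ⧸ (f i).asIdeal) (residue R r))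
      rw [← IsScalarTower.algebraMap_apply]
      have h4 : algebraMap (ResidueField R) (S ⧸ (f i).asIdeal) (residue R r) =
        Ideal.Quotient.mk (f i).asIdeal (algebraMap R S r) := rfl
      rw [h4, he₂, ← IsScalarTower.algebraMap_apply]) (Ideal.Quotient.mk (f i).asIdeal a)
  change e₁ (_ ^ _) = _
  rw [map_pow, h3, RingEquiv.apply_symm_apply, he₂]

end DvrNorm

section Fac

variable {A C F L F₁ : Type*} {ι : Type*} {κ : ι → Type*} [CommRing A] [IsDomain A]
  [IsNoetherianRing A] [CommRing C] [IsDomain C] [IsIntegrallyClosed C] [Algebra A C]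
  [Module.Finite A C] [FaithfulSMul A C] [Field F] [Algebra A F] [IsFractionRing A F] [Field L]
  [Algebra C L] [IsFractionRing C L] [Algebra F L] [Algebra A L] [IsScalarTower A F L]
  [IsScalarTower A C L] [FiniteDimensional F L] [Field F₁] [Algebra A F₁] [∀ i, Field (κ i)] [∀ i, Algebra C (κ i)]
  [∀ i, Algebra F₁ (κ i)] [∀ i, Algebra A (κ i)] [∀ i, IsScalarTower A F₁ (κ i)]
  [∀ i, IsScalarTower A C (κ i)]

set_option maxHeartbeats 2000000 in
/-- The norm modulo a principal prime. -/
theorem norm_fac {π : A} (hπ : Prime π) (hker : ∀ a, algebraMap A F₁ a = 0 ↔ π ∣ a)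
    (hF : ∀ y : F₁, ∃ a b : A, algebraMap A F₁ b ≠ 0 ∧
      y * algebraMap A F₁ b = algebraMap A F₁ a)
    (hκ : ∀ i (y : κ i), ∃ a b : C, algebraMap C (κ i) b ≠ 0 ∧
      y * algebraMap C (κ i) b = algebraMap C (κ i) a)
    (E : ι → Ideal C) (hE : ∀ i c, c ∈ E i ↔ algebraMap C (κ i) c = 0)
    (hinj : Function.Injective E)
    (hall : ∀ Q : Ideal C, Q.IsPrime → Q.comap (algebraMap A C) = Ideal.span {π} →
      ∃ i, E i = Q) :
    Finite ι ∧ (∀ i, Module.Finite F₁ (κ i)) ∧ ∃ e : ι → ℕ, (∀ i, 0 < e i) ∧
      (∀ i n, (∃ s, s ∉ E i ∧ s * algebraMap A C π ∈ E i ^ n) ↔ n ≤ e i) ∧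
      ∀ (a : C) (n : A), algebraMap A F n = Algebra.norm F (algebraMap C L a) →
        algebraMap A F₁ n = ∏ᶠ i, Algebra.norm F₁ (algebraMap C (κ i) a) ^ e i := by
  classical
  have hp : (Ideal.span {π}).IsPrime := (Ideal.span_singleton_prime hπ.ne_zero).2 hπ
  set P : Ideal A := Ideal.span {π} with hP
  have hmemP : ∀ a, a ∈ P ↔ algebraMap A F₁ a = 0 := fun a => by
    rw [hker, hP, Ideal.mem_span_singleton]
  let R := Localization.AtPrime P
  let S := Localization (Algebra.algebraMapSubmonoid C P.primeCompl)
  let algRS : Algebra R S := localizationAlgebra P.primeCompl C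
  have tARS : IsScalarTower A R S := IsScalarTower.of_algebraMap_eq'
    (by rw [RingHom.algebraMap_toAlgebra, IsLocalization.map_comp, ← IsScalarTower.algebraMap_eq])
  have hDVR : IsDiscreteValuationRing R := dvr_of_prime hπ
  have eC : Algebra.algebraMapSubmonoid C P.primeCompl ≤ nonZeroDivisors C :=
    Submonoid.map_le_of_le_comap _ <| P.primeCompl_le_nonZeroDivisors.trans
      (nonZeroDivisors_le_comap_nonZeroDivisors_of_injective _
        (FaithfulSMul.algebraMap_injective _ _))
  have : IsLocalization (Submonoid.map (algebraMap A C) (Ideal.primeCompl P)) S :=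
    inferInstanceAs (IsLocalization (Algebra.algebraMapSubmonoid C P.primeCompl) S)
  have hSdom : IsDomain S := IsLocalization.isDomain_of_le_nonZeroDivisors _ eC
  have hSfin : Module.Finite R S := .of_isLocalization A C P.primeCompl
  have hSint : IsIntegrallyClosed S := isIntegrallyClosed_of_isLocalization _ _ eC
  have hinjRS : Function.Injective (algebraMap R S) := by
    rw [RingHom.injective_iff_ker_eq_bot, RingHom.ker_eq_bot_iff_eq_zero]
    intro x hx
    obtain ⟨a, s, rfl⟩ := IsLocalization.exists_mk'_eq P.primeCompl x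
    have h1 : algebraMap R S (algebraMap A R a) = 0 := by
      have h2 : algebraMap A R a = IsLocalization.mk' R a s * algebraMap A R s :=
        (IsLocalization.mk'_spec R a s).symm
      rw [h2, map_mul, hx, zero_mul]
    rw [← IsScalarTower.algebraMap_apply, IsScalarTower.algebraMap_apply A C S] at h1
    have h3 : algebraMap A C a = 0 := by
      apply IsLocalization.injective S eC
      rw [h1, map_zero]
    have h4 : a = 0 := by
      apply FaithfulSMul.algebraMap_injective A C
      rw [h3, map_zero]
    rw [h4, IsLocalization.mk'_zero]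
  have hfaith : FaithfulSMul R S := (faithfulSMul_iff_algebraMap_injective R S).2 hinjRS
  have htf : Module.IsTorsionFree R S := Module.isTorsionFree_iff_algebraMap_injective.2 hinjRS
  have hfree : Module.Free R S := Module.free_of_finite_type_torsion_free'
  have hnoeth : IsNoetherianRing S := IsNoetherianRing.of_finite R S
  have hdim : Ring.DimensionLEOne S := by
    refine ⟨fun {Q} hQ0 hQ => ?_⟩
    have h1 : Q.comap (algebraMap R S) ≠ ⊥ := by
      intro h
      exact hQ0 (Ideal.eq_bot_of_comap_eq_bot h)
    have h2 : (Q.comap (algebraMap R S)).IsMaximal := Ring.DimensionLEOne.maximalOfPrime h1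
      inferInstance
    exact Ideal.isMaximal_of_isIntegral_of_isMaximal_comap Q h2
  have hded : IsDedekindDomain S := {}
  -- algebra structures
  let fR : R →+* F₁ := IsLocalization.lift (M := P.primeCompl) (g := algebraMap A F₁)
    (fun y => Ne.isUnit fun h => y.2 ((hmemP y).2 h))
  let _ : Algebra R F₁ := fR.toAlgebra
  have tARF₁ : IsScalarTower A R F₁ := IsScalarTower.of_algebraMap_eq fun a =>
    (IsLocalization.lift_eq _ a).symm
  have hF' : Function.Surjective (algebraMap R F₁) := by
    intro y
    obtain ⟨a, b, hb, h⟩ := hF y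
    refine ⟨IsLocalization.mk' R a (⟨b, fun hb' => hb ((hmemP b).1 hb')⟩ : P.primeCompl), ?_⟩
    change fR _ = y
    rw [IsLocalization.lift_mk'_spec]
    rw [mul_comm]
    exact h.symm
  have hu : ∀ i (y : Algebra.algebraMapSubmonoid C P.primeCompl),
      IsUnit (algebraMap C (κ i) y) := by
    rintro i ⟨_, a, ha, rfl⟩
    apply Ne.isUnit
    change algebraMap C (κ i) (algebraMap A C a) ≠ 0
    rw [← IsScalarTower.algebraMap_apply, IsScalarTower.algebraMap_apply A F₁ (κ i)]
    intro h
    rw [map_eq_zero] at h
    exact ha ((hmemP a).2 h)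
  let algS : ∀ i, Algebra S (κ i) := fun i => (IsLocalization.lift
    (M := Algebra.algebraMapSubmonoid C P.primeCompl) (g := algebraMap C (κ i)) (hu i) :
    S →+* κ i).toAlgebra
  have tCS : ∀ i, IsScalarTower C S (κ i) := fun i => IsScalarTower.of_algebraMap_eq fun a =>
    (IsLocalization.lift_eq _ a).symm
  let algR : ∀ i, Algebra R (κ i) := fun i =>
    ((algebraMap F₁ (κ i)).comp (algebraMap R F₁)).toAlgebra
  have tRF : ∀ i, IsScalarTower R F₁ (κ i) := fun i => IsScalarTower.of_algebraMap_eq' rfl
  have tRS : ∀ i, IsScalarTower R S (κ i) := fun i => by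
    apply IsScalarTower.of_algebraMap_eq'
    apply IsLocalization.ringHom_ext P.primeCompl
    ext a
    change algebraMap F₁ (κ i) (algebraMap R F₁ (algebraMap A R a)) =
      algebraMap S (κ i) (algebraMap R S (algebraMap A R a))
    rw [← IsScalarTower.algebraMap_apply A R F₁, ← IsScalarTower.algebraMap_apply A R S,
      IsScalarTower.algebraMap_apply A C S, ← IsScalarTower.algebraMap_apply C S (κ i),
      ← IsScalarTower.algebraMap_apply A C (κ i), ← IsScalarTower.algebraMap_apply A F₁ (κ i)]
  have hK : ∀ i c, algebraMap C S c ∈ RingHom.ker (algebraMap S (κ i)) ↔ c ∈ E i := fun i c => by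
    rw [RingHom.mem_ker, ← IsScalarTower.algebraMap_apply, hE]
  have hKprime : ∀ i, (RingHom.ker (algebraMap S (κ i))).IsPrime := fun i =>
    RingHom.ker_isPrime _
  have hKmax : ∀ i, (RingHom.ker (algebraMap S (κ i))).IsMaximal := fun i => by
    have h1 : (RingHom.ker (algebraMap S (κ i))).comap (algebraMap R S) =
        RingHom.ker (algebraMap R F₁) := by
      ext r
      rw [Ideal.mem_comap, RingHom.mem_ker, RingHom.mem_ker, ← IsScalarTower.algebraMap_apply,
        IsScalarTower.algebraMap_apply R F₁ (κ i), map_eq_zero]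
    refine Ideal.isMaximal_of_isIntegral_of_isMaximal_comap (R := R) _ ?_
    rw [h1]
    exact RingHom.ker_isMaximal_of_surjective _ hF'
  have hκ' : ∀ i, Function.Surjective (algebraMap S (κ i)) := by
    intro i y
    obtain ⟨a, b, hb, h⟩ := hκ i y
    have h1 : algebraMap C S b ∉ RingHom.ker (algebraMap S (κ i)) := by
      rw [hK, hE]
      exact hb
    obtain ⟨d, q, hq, hd⟩ := (hKmax i).exists_inv h1
    refine ⟨algebraMap C S a * d, ?_⟩
    have h2 := congrArg (algebraMap S (κ i)) hd
    rw [map_add, map_mul, map_one, RingHom.mem_ker.1 hq, add_zero,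
      ← IsScalarTower.algebraMap_apply] at h2
    rw [map_mul, ← IsScalarTower.algebraMap_apply, ← h]
    calc _ = y * (algebraMap S (κ i) d * algebraMap C (κ i) b) := by ring
      _ = _ := by rw [h2, mul_one]
  have hπR : maximalIdeal R = Ideal.span {algebraMap A R π} := by
    rw [← IsLocalization.AtPrime.map_eq_maximalIdeal P]
    have h1 : Ideal.map (algebraMap A R) P = Ideal.map (algebraMap A R) (Ideal.span {π}) := rfl
    rw [h1, Ideal.map_span, Set.image_singleton]
  have hπS : Ideal.map (algebraMap R S) (maximalIdeal R) =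
      Ideal.span {algebraMap C S (algebraMap A C π)} := by
    rw [hπR, Ideal.map_span, Set.image_singleton, ← IsScalarTower.algebraMap_apply,
      IsScalarTower.algebraMap_apply A C S]
  have hπ0 : algebraMap C S (algebraMap A C π) ≠ 0 := by
    intro h
    have h1 : algebraMap A C π = 0 := by
      apply IsLocalization.injective S eC
      rw [h, map_zero]
    apply hπ.ne_zero
    apply FaithfulSMul.algebraMap_injective A C
    rw [h1, map_zero]
  have hπE : ∀ i, algebraMap A C π ∈ E i := by
    intro i
    rw [hE, ← IsScalarTower.algebraMap_apply, IsScalarTower.algebraMap_apply A F₁ (κ i),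
      (hker π).2 dvd_rfl, map_zero]
  have hK0 : ∀ i, RingHom.ker (algebraMap S (κ i)) ≠ ⊥ := by
    intro i h
    apply hπ0
    have h1 := (hK i _).2 (hπE i)
    rwa [h, Ideal.mem_bot] at h1
  let f₀ : ι → HeightOneSpectrum S := fun i => ⟨_, hKprime i, hK0 i⟩
  have hmap : ∀ i, Ideal.map (algebraMap C S) (E i) = (f₀ i).asIdeal := by
    intro i
    have h1 : E i = Ideal.comap (algebraMap C S) (f₀ i).asIdeal := by
      ext c
      exact (hK i c).symm
    rw [h1, IsLocalization.map_under (Algebra.algebraMapSubmonoid C P.primeCompl)]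
  have hbij : Function.Bijective f₀ := by
    constructor
    · intro i j hij
      apply hinj
      ext c
      rw [← hK, ← hK]
      have h1 : (f₀ i).asIdeal = (f₀ j).asIdeal := by rw [hij]
      change algebraMap C S c ∈ (f₀ i).asIdeal ↔ algebraMap C S c ∈ (f₀ j).asIdeal
      rw [h1]
    · intro v
      have hv0 : v.asIdeal.comap (algebraMap R S) ≠ ⊥ := fun h =>
        v.ne_bot (Ideal.eq_bot_of_comap_eq_bot h)
      have hv1 : (v.asIdeal.comap (algebraMap R S)).IsMaximal :=
        Ring.DimensionLEOne.maximalOfPrime hv0 inferInstance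
      have hv2 : v.asIdeal.comap (algebraMap R S) = maximalIdeal R :=
        IsLocalRing.eq_maximalIdeal hv1
      have hv3 : (v.asIdeal.comap (algebraMap C S)).comap (algebraMap A C) = P := by
        rw [Ideal.comap_comap, ← IsScalarTower.algebraMap_eq, IsScalarTower.algebraMap_eq A R S,
          ← Ideal.comap_comap, hv2]
        exact IsLocalization.AtPrime.under_maximalIdeal R P
      obtain ⟨i, hi⟩ := hall _ inferInstance hv3
      refine ⟨i, ?_⟩
      ext1
      rw [← hmap, hi, IsLocalization.map_under (Algebra.algebraMapSubmonoid C P.primeCompl)]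
  let f : ι ≃ HeightOneSpectrum S := Equiv.ofBijective f₀ hbij
  have hf : ∀ i s, s ∈ (f i).asIdeal ↔ algebraMap S (κ i) s = 0 := fun i s => Iff.rfl
  obtain ⟨M, hM⟩ : ∃ M, M = Ideal.map (algebraMap R S) (maximalIdeal R) := ⟨_, rfl⟩
  have hM0 : M ≠ 0 := by
    rw [hM, hπS]
    intro h
    apply hπ0
    have h1 := Ideal.mem_span_singleton_self (algebraMap C S (algebraMap A C π))
    rw [h] at h1
    exact h1
  have hfm : ∀ i, FiniteMultiplicity (f i).asIdeal M := fun i =>
    FiniteMultiplicity.of_prime_left (f i).prime hM0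
  have hle : ∀ i n, n ≤ multiplicity (f i).asIdeal M ↔
      algebraMap C S (algebraMap A C π) ∈ (f i).asIdeal ^ n := by
    intro i n
    rw [← (hfm i).pow_dvd_iff_le_multiplicity, Ideal.dvd_iff_le, hM, hπS,
      Ideal.span_singleton_le_iff_mem]
  have hpos : ∀ i, 0 < multiplicity (f i).asIdeal M := by
    intro i
    have h1 := (hle i 1).2 (by
      rw [pow_one]
      exact (hK i _).2 (hπE i))
    exact h1
  have hmain : ∀ a : S, {i : ι | multiplicity (f i).asIdeal M ≠ 0}.Finite ∧
      algebraMap R F₁ (Algebra.norm R a) = ∏ᶠ i, Algebra.norm F₁ (algebraMap S (κ i) a) ^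
      multiplicity (f i).asIdeal M := fun a => by
    rw [hM]
    exact norm_dvr hF' hκ' f hf a
  refine ⟨?_, ?_, fun i => multiplicity (f i).asIdeal M, hpos, ?_, ?_⟩
  · rw [← Set.finite_univ_iff]
    refine (hmain 0).1.subset fun i _ => ?_
    exact (hpos i).ne'
  · intro i
    have h1 : Module.Finite R (κ i) :=
      Module.Finite.of_surjective (IsScalarTower.toAlgHom R S (κ i)).toLinearMap (hκ' i)
    exact Module.Finite.of_restrictScalars_finite R F₁ (κ i)
  · intro i n
    rw [hle]
    constructor
    · rintro ⟨s, hs, h⟩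
      have h1 : algebraMap C S (s * algebraMap A C π) ∈ Ideal.map (algebraMap C S) (E i ^ n) :=
        Ideal.mem_map_of_mem _ h
      rw [Ideal.map_pow, hmap, map_mul] at h1
      have h2 : algebraMap C S s ∉ (f₀ i).asIdeal := fun h3 => hs ((hK i s).1 h3)
      have h4 : (f₀ i).asIdeal.IsPrime := (f₀ i).isPrime
      exact (h4.mul_mem_pow _ h1).resolve_left h2
    · intro h
      have h1 : (f i).asIdeal = Ideal.map (algebraMap C S) (E i) := (hmap i).symm
      rw [h1, ← Ideal.map_pow, IsLocalization.algebraMap_mem_map_algebraMap_iff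
        (Algebra.algebraMapSubmonoid C P.primeCompl)] at h
      obtain ⟨_, ⟨m, hm, rfl⟩, h2⟩ := h
      refine ⟨algebraMap A C m, ?_, h2⟩
      rw [hE, ← IsScalarTower.algebraMap_apply, IsScalarTower.algebraMap_apply A F₁ (κ i)]
      intro h3
      rw [map_eq_zero] at h3
      exact hm ((hmemP m).2 h3)
  · intro a n hn
    have h1 : algebraMap A R n = Algebra.norm R (algebraMap C S a) := by
      have hAF : Function.Injective (algebraMap A F) := IsFractionRing.injective A F
      have hCL : Function.Injective (algebraMap C L) := IsFractionRing.injective C L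
      let _ : Algebra R F := (IsLocalization.lift (M := P.primeCompl) (g := algebraMap A F)
        (fun y => Ne.isUnit fun h => y.2 (by
          have h0 : (y : A) = 0 := hAF (by rw [h, map_zero])
          rw [h0]
          exact P.zero_mem)) : R →+* F).toAlgebra
      have tARF : IsScalarTower A R F := IsScalarTower.of_algebraMap_eq fun a =>
        (IsLocalization.lift_eq _ a).symm
      let _ : Algebra S L := (IsLocalization.lift
        (M := Algebra.algebraMapSubmonoid C P.primeCompl) (g := algebraMap C L)
        (fun y => Ne.isUnit fun h => nonZeroDivisors.ne_zero (eC y.2)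
          (hCL (by rw [h, map_zero]))) : S →+* L).toAlgebra
      have tCSL : IsScalarTower C S L := IsScalarTower.of_algebraMap_eq fun a =>
        (IsLocalization.lift_eq _ a).symm
      let _ : Algebra R L := ((algebraMap F L).comp (algebraMap R F)).toAlgebra
      have tRFL : IsScalarTower R F L := IsScalarTower.of_algebraMap_eq' rfl
      have tRSL : IsScalarTower R S L := by
        apply IsScalarTower.of_algebraMap_eq'
        apply IsLocalization.ringHom_ext P.primeCompl
        ext a
        change algebraMap F L (algebraMap R F (algebraMap A R a)) =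
          algebraMap S L (algebraMap R S (algebraMap A R a))
        rw [← IsScalarTower.algebraMap_apply A R F, ← IsScalarTower.algebraMap_apply A R S,
          IsScalarTower.algebraMap_apply A C S, ← IsScalarTower.algebraMap_apply C S L,
          ← IsScalarTower.algebraMap_apply A C L, ← IsScalarTower.algebraMap_apply A F L]
      have hRF : IsFractionRing R F :=
        IsFractionRing.isFractionRing_of_isDomain_of_isLocalization P.primeCompl R F
      have hSL : IsFractionRing S L :=
        IsFractionRing.isFractionRing_of_isDomain_of_isLocalization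
          (Algebra.algebraMapSubmonoid C P.primeCompl) S L
      have hic : IsIntegralClosure S R L := IsIntegralClosure.of_isIntegrallyClosed _ _ _
      apply IsFractionRing.injective R F
      rw [← Algebra.intNorm_eq_norm R S, Algebra.algebraMap_intNorm (L := L),
        ← IsScalarTower.algebraMap_apply, ← IsScalarTower.algebraMap_apply, hn]
    have h2 := (hmain (algebraMap C S a)).2
    rw [← h1, ← IsScalarTower.algebraMap_apply] at h2
    rw [h2]
    refine finprod_congr fun i => ?_
    rw [← IsScalarTower.algebraMap_apply]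

end Fac

end Pool.Agent.TG82
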