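import Pool.Agent.Lib.TG_h82.ResF
import Pool.Agent.Lib.TGJ.ResCorr
import Pool.Agent.Lib.TGJ.Link

/-!
# TANK G, block C: the norm of the integral closure of `k[f]` modulo `f 0`
-/

set_option autoImplicit false

namespace Pool.Agent.TG82

open Pool.Agent.TG (ncl up)
open Pool.Agent.TGJ (kf icf Over0)

universe u

section FF

variable {k : Type u} [Field k] {K : Type u} [Field K] [Algebra k K] {n : ℕ}
  {f : Fin n → K} (hf : AlgebraicIndependent k f)

/-- The field generated by `f`. -/
theorem fieldRange_liftF : (liftF f hf).fieldRange = IntermediateField.adjoin k (Set.range f) := by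
  have h1 : ∀ p : MvPolynomial (Fin n) k, MvPolynomial.aeval f p ∈ IntermediateField.adjoin k (Set.range f) := by
    intro p
    apply IntermediateField.algebra_adjoin_le_adjoin
    exact mem_kf.2 ⟨p, rfl⟩
  apply le_antisymm
  · rintro _ ⟨y, rfl⟩
    obtain ⟨a, b, hb, rfl⟩ := IsFractionRing.div_surjective (A := MvPolynomial (Fin n) k) y
    change liftF f hf _ ∈ _
    rw [map_div₀, liftF_coe, liftF_coe]
    exact div_mem (h1 a) (h1 b)
  · rw [IntermediateField.adjoin_le_iff]
    rintro _ ⟨i, rfl⟩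
    refine ⟨algebraMap (MvPolynomial (Fin n) k) (Fn k n) (MvPolynomial.X i), ?_⟩
    change liftF f hf _ = _
    rw [liftF_coe, MvPolynomial.aeval_X]

theorem finiteDimensional_F
    (hfd : FiniteDimensional (IntermediateField.adjoin k (Set.range f)) K) :
    let _ := algF f hf
    FiniteDimensional (Fn k n) K := by
  intro _
  have h1 : ∀ y, liftF f hf y ∈ IntermediateField.adjoin k (Set.range f) := by
    intro y
    rw [← fieldRange_liftF hf]
    exact ⟨y, rfl⟩
  let ψ : Fn k n →+* IntermediateField.adjoin k (Set.range f) :=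
    (liftF f hf).toRingHom.codRestrict (IntermediateField.adjoin k (Set.range f)) h1
  let _ : Algebra (Fn k n) (IntermediateField.adjoin k (Set.range f)) := ψ.toAlgebra
  have h2 : IsScalarTower (Fn k n) (IntermediateField.adjoin k (Set.range f)) K :=
    IsScalarTower.of_algebraMap_eq fun _ => rfl
  have h3 : Function.Surjective (algebraMap (Fn k n)
      (IntermediateField.adjoin k (Set.range f))) := by
    rintro ⟨y, hy⟩
    rw [← fieldRange_liftF hf] at hy
    obtain ⟨x, hx⟩ := hy
    exact ⟨x, Subtype.ext hx⟩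
  have h4 : Module.Finite (Fn k n) (IntermediateField.adjoin k (Set.range f)) :=
    Module.Finite.of_surjective (Algebra.linearMap (Fn k n) _) h3
  exact Module.Finite.trans (IntermediateField.adjoin k (Set.range f)) K

/-- `icf k f` is the integral closure of the polynomial ring. -/
theorem isIntegral_P_iff (a : K) :
    IsIntegral (kf k f) a ↔ ∃ p : Polynomial (MvPolynomial (Fin n) k), p.Monic ∧
      Polynomial.eval₂ (MvPolynomial.aeval f : MvPolynomial (Fin n) k →ₐ[k] K).toRingHom a p =
        0 := by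
  let ψ : MvPolynomial (Fin n) k →+* kf k f :=
    (MvPolynomial.aeval f : MvPolynomial (Fin n) k →ₐ[k] K).toRingHom.codRestrict (kf k f)
      fun p => mem_kf.2 ⟨p, rfl⟩
  have hψ : (algebraMap (kf k f) K).comp ψ =
      (MvPolynomial.aeval f : MvPolynomial (Fin n) k →ₐ[k] K).toRingHom := rfl
  have hs : Function.Surjective ψ := by
    rintro ⟨a, ha⟩
    obtain ⟨p, hp⟩ := mem_kf.1 ha
    exact ⟨p, Subtype.ext hp⟩
  constructor
  · rintro ⟨p, hp, h0⟩
    obtain ⟨q, hq, -, hqm⟩ := Polynomial.lifts_and_natDegree_eq_and_monic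
      (show p ∈ Polynomial.lifts ψ by
        rw [Polynomial.lifts_iff_coeff_lifts]
        intro i
        exact hs _) hp
    refine ⟨q, hqm, ?_⟩
    rw [← hψ, ← Polynomial.eval₂_map, hq]
    exact h0
  · rintro ⟨p, hp, h0⟩
    refine ⟨p.map ψ, hp.map _, ?_⟩
    rw [Polynomial.eval₂_map, hψ]
    exact h0

end FF

section NI

variable {k : Type u} [Field k] {K : Type u} [Field K] [Algebra k K] {m : ℕ}
  {f : Fin (m + 1) → K} (hf : AlgebraicIndependent k f)

/-- The residue fields as extensions of the rational functions. -/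
noncomputable abbrev algR (Q : {Q : PrimeSpectrum (icf k f) // Lies f Q}) :
    Algebra (Fn k m) Q.1.asIdeal.ResidueField := algF (wbar f Q.1) (wbar_indep Q.2)

set_option maxHeartbeats 2000000 in
/-- **The norm of the integral closure of `k[f]` modulo `f 0`.** -/
theorem norm_icf (hfd : FiniteDimensional (IntermediateField.adjoin k (Set.range f)) K)
    (hfin : (toI (k := k) f).toRingHom.Finite) :
    let _ := algF f hf
    let _ := fun Q : {Q : PrimeSpectrum (icf k f) // Lies f Q} => algR Q
    Finite {Q : PrimeSpectrum (icf k f) // Lies f Q} ∧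
    (∀ Q : {Q : PrimeSpectrum (icf k f) // Lies f Q},
      Module.Finite (Fn k m) Q.1.asIdeal.ResidueField) ∧
    ∃ e : {Q : PrimeSpectrum (icf k f) // Lies f Q} → ℕ, (∀ Q, 0 < e Q) ∧
      (∀ Q n, (∃ s, s ∉ Q.1.asIdeal ∧ s * TGJ.icf.X f 0 ∈ Q.1.asIdeal ^ n) ↔ n ≤ e Q) ∧
      ∀ (a : icf k f) (p : MvPolynomial (Fin (m + 1)) k),
        algebraMap (MvPolynomial (Fin (m + 1)) k) (Fn k (m + 1)) p =
          Algebra.norm (Fn k (m + 1)) (a : K) →
        algebraMap (MvPolynomial (Fin m) k) (Fn k m) (qP k m p) =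
          ∏ᶠ Q : {Q : PrimeSpectrum (icf k f) // Lies f Q}, Algebra.norm (Fn k m)
            (algebraMap (icf k f) Q.1.asIdeal.ResidueField a) ^ e Q := by
  intro i1 i2
  let _ : Algebra (MvPolynomial (Fin (m + 1)) k) K :=
    (MvPolynomial.aeval f : MvPolynomial (Fin (m + 1)) k →ₐ[k] K).toRingHom.toAlgebra
  let _ : Algebra (MvPolynomial (Fin (m + 1)) k) (icf k f) := (toI f).toRingHom.toAlgebra
  have t1 : IsScalarTower (MvPolynomial (Fin (m + 1)) k) (icf k f) K :=
    IsScalarTower.of_algebraMap_eq fun p => (toI_coe f p).symm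
  have t2 : IsScalarTower (MvPolynomial (Fin (m + 1)) k) (Fn k (m + 1)) K :=
    IsScalarTower.of_algebraMap_eq fun p => (liftF_coe f hf p).symm
  have hfd' : FiniteDimensional (Fn k (m + 1)) K := finiteDimensional_F hf hfd
  have hIC : IsIntegralClosure (icf k f) (MvPolynomial (Fin (m + 1)) k) K := by
    refine ⟨Subtype.val_injective, fun {a} => ?_⟩
    have h1 : IsIntegral (MvPolynomial (Fin (m + 1)) k) a ↔ IsIntegral (kf k f) a :=
      (isIntegral_P_iff a).symm
    rw [h1]
    constructor
    · intro h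
      exact ⟨⟨a, h⟩, rfl⟩
    · rintro ⟨y, rfl⟩
      exact y.2
  have hFR : IsFractionRing (icf k f) K :=
    IsIntegralClosure.isFractionRing_of_finite_extension (MvPolynomial (Fin (m + 1)) k)
      (Fn k (m + 1)) K (icf k f)
  have hint : Algebra.IsIntegral (MvPolynomial (Fin (m + 1)) k) (icf k f) :=
    IsIntegralClosure.isIntegral_algebra (MvPolynomial (Fin (m + 1)) k) K
  have hicl : IsIntegrallyClosed (icf k f) := by
    rw [isIntegrallyClosed_iff K]
    intro x hx
    have h1 : IsIntegral (MvPolynomial (Fin (m + 1)) k) x := isIntegral_trans x hx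
    exact (IsIntegralClosure.isIntegral_iff (A := icf k f)).1 h1
  have hmf : Module.Finite (MvPolynomial (Fin (m + 1)) k) (icf k f) := hfin
  have hfs : FaithfulSMul (MvPolynomial (Fin (m + 1)) k) (icf k f) :=
    (faithfulSMul_iff_algebraMap_injective _ _).2 (toI_injective hf)
  let _ : Algebra (MvPolynomial (Fin (m + 1)) k) (Fn k m) :=
    ((algebraMap (MvPolynomial (Fin m) k) (Fn k m)).comp (qP k m).toRingHom).toAlgebra
  have hmapF : ∀ p, algebraMap (MvPolynomial (Fin (m + 1)) k) (Fn k m) p =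
      algebraMap (MvPolynomial (Fin m) k) (Fn k m) (qP k m p) := fun _ => rfl
  have hmapκ : ∀ (Q : {Q : PrimeSpectrum (icf k f) // Lies f Q}) p,
      algebraMap (MvPolynomial (Fin (m + 1)) k) Q.1.asIdeal.ResidueField p =
        algebraMap (icf k f) Q.1.asIdeal.ResidueField (toI f p) := fun _ _ => rfl
  have t3 : ∀ Q : {Q : PrimeSpectrum (icf k f) // Lies f Q},
      IsScalarTower (MvPolynomial (Fin (m + 1)) k) (Fn k m) Q.1.asIdeal.ResidueField := by
    intro Q
    refine IsScalarTower.of_algebraMap_eq fun p => ?_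
    rw [hmapκ, res_toI Q.2, hmapF]
    exact (liftF_coe (wbar f Q.1) (wbar_indep Q.2) _).symm
  have hX : Prime (MvPolynomial.X 0 : MvPolynomial (Fin (m + 1)) k) := by
    refine ⟨MvPolynomial.X_ne_zero 0, ?_, ?_⟩
    · intro h
      have h1 := h.map (qP k m)
      rw [qP_X_zero] at h1
      exact not_isUnit_zero h1
    · intro a b h
      rw [← qP_eq_zero, map_mul, mul_eq_zero, qP_eq_zero, qP_eq_zero] at h
      exact h
  have hkerF : ∀ p : MvPolynomial (Fin (m + 1)) k,
      algebraMap (MvPolynomial (Fin (m + 1)) k) (Fn k m) p = 0 ↔ MvPolynomial.X 0 ∣ p := by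
    intro p
    rw [hmapF, ← qP_eq_zero]
    constructor
    · intro h
      apply IsFractionRing.injective (MvPolynomial (Fin m) k) (Fn k m)
      rw [h, map_zero]
    · intro h
      rw [h, map_zero]
  have key := norm_fac (A := MvPolynomial (Fin (m + 1)) k) (C := icf k f) (F := Fn k (m + 1))
    (L := K) (F₁ := Fn k m) (κ := fun Q : {Q : PrimeSpectrum (icf k f) // Lies f Q} =>
      Q.1.asIdeal.ResidueField) hX hkerF ?_ ?_ (fun Q => Q.1.asIdeal) ?_ ?_ ?_
  · have hX0 : algebraMap (MvPolynomial (Fin (m + 1)) k) (icf k f) (MvPolynomial.X 0) =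
        TGJ.icf.X f 0 := MvPolynomial.aeval_X _ _
    rw [hX0] at key
    exact key
  · intro y
    obtain ⟨a, b, hb, rfl⟩ := IsFractionRing.div_surjective (A := MvPolynomial (Fin m) k) y
    refine ⟨MvPolynomial.rename Fin.succ a, MvPolynomial.rename Fin.succ b, ?_, ?_⟩
    · rw [hmapF, qP_rename]
      exact IsFractionRing.to_map_ne_zero_of_mem_nonZeroDivisors hb
    · rw [hmapF, hmapF, qP_rename, qP_rename, div_mul_cancel₀]
      exact IsFractionRing.to_map_ne_zero_of_mem_nonZeroDivisors hb
  · intro Q y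
    obtain ⟨a, b, hb, h⟩ := TGJ.fracOf_residue (k := k) Q.1.asIdeal y
    exact ⟨a, b, hb, h⟩
  · intro Q c
    exact (Ideal.algebraMap_residueField_eq_zero).symm
  · intro Q Q' h
    exact Subtype.ext (PrimeSpectrum.ext h)
  · intro Q hQ h
    refine ⟨⟨⟨Q, hQ⟩, fun p => ?_⟩, rfl⟩
    have h1 : p ∈ Q.comap (algebraMap (MvPolynomial (Fin (m + 1)) k) (icf k f)) ↔
        MvPolynomial.X 0 ∣ p := by
      rw [h, Ideal.mem_span_singleton]
    exact h1

end NI

end Pool.Agent.TG82
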