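import Pool.Agent.Lib.TG_h82.Flag
import Pool.Agent.Lib.TG_h82.NormFac

/-!
# TANK G, block C: the field of rational functions, maps given by algebraically independent families
-/

set_option autoImplicit false

namespace Pool.Agent.TG82

open Pool.Agent.TG (ncl up)

universe u

section Poly

variable (k : Type u) [Field k] (n : ℕ)

/-- The field of rational functions. -/
def Fn : Type u := FractionRing (MvPolynomial (Fin n) k)

noncomputable instance : Field (Fn k n) :=
  inferInstanceAs (Field (FractionRing (MvPolynomial (Fin n) k)))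

noncomputable instance : Algebra (MvPolynomial (Fin n) k) (Fn k n) :=
  inferInstanceAs (Algebra (MvPolynomial (Fin n) k) (FractionRing (MvPolynomial (Fin n) k)))

noncomputable instance : Algebra k (Fn k n) :=
  inferInstanceAs (Algebra k (FractionRing (MvPolynomial (Fin n) k)))

instance : IsScalarTower k (MvPolynomial (Fin n) k) (Fn k n) :=
  inferInstanceAs (IsScalarTower k (MvPolynomial (Fin n) k)
    (FractionRing (MvPolynomial (Fin n) k)))

instance : IsFractionRing (MvPolynomial (Fin n) k) (Fn k n) :=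
  inferInstanceAs (IsFractionRing (MvPolynomial (Fin n) k)
    (FractionRing (MvPolynomial (Fin n) k)))

/-- The polynomial ring in `Fn k n`. -/
noncomputable def An : Subalgebra k (Fn k n) :=
  (IsScalarTower.toAlgHom k (MvPolynomial (Fin n) k) (Fn k n)).range

variable {n}

theorem mem_An {b : Fn k n} :
    b ∈ An k n ↔ ∃ p, algebraMap (MvPolynomial (Fin n) k) (Fn k n) p = b := Iff.rfl

variable (n)

/-- The polynomial ring is `An`. -/
noncomputable def toAn : MvPolynomial (Fin n) k ≃ₐ[k] An k n :=
  AlgEquiv.ofInjective _ (IsFractionRing.injective (MvPolynomial (Fin n) k) (Fn k n))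

variable {n}

theorem toAn_coe (p : MvPolynomial (Fin n) k) :
    ((toAn k n p : An k n) : Fn k n) = algebraMap (MvPolynomial (Fin n) k) (Fn k n) p := rfl

theorem toAn_symm (a : An k n) :
    algebraMap (MvPolynomial (Fin n) k) (Fn k n) ((toAn k n).symm a) = a := by
  rw [← toAn_coe, AlgEquiv.apply_symm_apply]

variable {k}

theorem An_ic (b : Fn k n) (hb : IsIntegral (An k n) b) : b ∈ An k n := by
  obtain ⟨p, hp, h0⟩ := hb
  have h1 : IsIntegral (MvPolynomial (Fin n) k) b := by
    refine ⟨p.map ((toAn k n).symm : An k n →+* MvPolynomial (Fin n) k), hp.map _, ?_⟩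
    rw [Polynomial.eval₂_map]
    have h2 : (algebraMap (MvPolynomial (Fin n) k) (Fn k n)).comp
        ((toAn k n).symm : An k n →+* MvPolynomial (Fin n) k) = algebraMap (An k n) (Fn k n) := by
      ext a
      exact toAn_symm k a
    rw [h2]
    exact h0
  obtain ⟨y, hy⟩ := IsIntegrallyClosed.isIntegral_iff.1 h1
  exact ⟨y, hy⟩

variable {L : Type u} [Field L] [Algebra k L]

/-- The extension of `aeval f` to the rational functions. -/
noncomputable def liftF (f : Fin n → L) (hf : AlgebraicIndependent k f) : Fn k n →ₐ[k] L :=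
  IsFractionRing.liftAlgHom (g := MvPolynomial.aeval f) hf

theorem liftF_coe (f : Fin n → L) (hf : AlgebraicIndependent k f) (p : MvPolynomial (Fin n) k) :
    liftF f hf (algebraMap (MvPolynomial (Fin n) k) (Fn k n) p) = MvPolynomial.aeval f p := by
  exact IsLocalization.lift_eq _ p

/-- `L` as an extension of the rational functions. -/
noncomputable abbrev algF (f : Fin n → L) (hf : AlgebraicIndependent k f) :
    Algebra (Fn k n) L := (liftF f hf).toRingHom.toAlgebra

theorem towF (f : Fin n → L) (hf : AlgebraicIndependent k f) :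
    let _ := algF f hf
    IsScalarTower k (Fn k n) L := by
  intro _
  exact IsScalarTower.of_algebraMap_eq fun c => ((liftF f hf).commutes c).symm

theorem up_An (f : Fin n → L) (hf : AlgebraicIndependent k f) :
    letI := algF f hf
    letI := towF f hf
    up L (An k n) = Algebra.adjoin k (Set.range f) := by
  rw [Algebra.adjoin_range_eq_range_aeval]
  apply le_antisymm
  · rintro _ ⟨_, ⟨p, rfl⟩, rfl⟩
    refine ⟨p, ?_⟩
    exact (liftF_coe f hf p).symm
  · rintro _ ⟨p, rfl⟩
    exact ⟨_, ⟨p, rfl⟩, liftF_coe f hf p⟩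

/-- The origin. -/
noncomputable def zn (k : Type u) [Field k] (n : ℕ) : An k n →ₐ[k] k :=
  (MvPolynomial.aeval (fun _ => (0 : k))).comp (toAn k n).symm.toAlgHom

/-- Division by the first variable. -/
noncomputable def qP (k : Type u) [Field k] (m : ℕ) :
    MvPolynomial (Fin (m + 1)) k →ₐ[k] MvPolynomial (Fin m) k :=
  MvPolynomial.aeval (Fin.cons 0 MvPolynomial.X : Fin (m + 1) → MvPolynomial (Fin m) k)

theorem qP_X_zero (m : ℕ) : qP k m (MvPolynomial.X 0) = 0 := by
  rw [qP, MvPolynomial.aeval_X, Fin.cons_zero]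

theorem qP_X_succ (m : ℕ) (i : Fin m) : qP k m (MvPolynomial.X i.succ) = MvPolynomial.X i := by
  rw [qP, MvPolynomial.aeval_X, Fin.cons_succ]

theorem qP_rename (m : ℕ) (p : MvPolynomial (Fin m) k) :
    qP k m (MvPolynomial.rename Fin.succ p) = p := by
  rw [qP, MvPolynomial.aeval_rename]
  have h1 : (Fin.cons 0 MvPolynomial.X : Fin (m + 1) → MvPolynomial (Fin m) k) ∘ Fin.succ =
      MvPolynomial.X := by
    funext i
    exact Fin.cons_succ _ _ i
  rw [h1, MvPolynomial.aeval_X_left, AlgHom.id_apply]

/-- The kernel of the division by the first variable. -/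
theorem qP_sub (m : ℕ) (p : MvPolynomial (Fin (m + 1)) k) :
    ∃ r, p = MvPolynomial.X 0 * r + MvPolynomial.rename Fin.succ (qP k m p) := by
  induction p using MvPolynomial.induction_on with
  | C a =>
    refine ⟨0, ?_⟩
    rw [mul_zero, zero_add]
    have h1 : (MvPolynomial.C a : MvPolynomial (Fin (m + 1)) k) = algebraMap k _ a := rfl
    rw [h1, AlgHom.commutes, AlgHom.commutes]
  | add p q hp hq =>
    obtain ⟨r, hr⟩ := hp
    obtain ⟨s, hs⟩ := hq
    refine ⟨r + s, ?_⟩
    rw [map_add, map_add]
    calc p + q = (MvPolynomial.X 0 * r + MvPolynomial.rename Fin.succ (qP k m p)) +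
        (MvPolynomial.X 0 * s + MvPolynomial.rename Fin.succ (qP k m q)) := by rw [← hr, ← hs]
      _ = _ := by ring
  | mul_X p i hp =>
    obtain ⟨r, hr⟩ := hp
    refine Fin.cases ?_ (fun j => ?_) i
    · refine ⟨p, ?_⟩
      rw [map_mul, qP_X_zero, mul_zero, map_zero, add_zero, mul_comm]
    · refine ⟨r * MvPolynomial.X j.succ, ?_⟩
      rw [map_mul, qP_X_succ, map_mul, MvPolynomial.rename_X]
      calc p * MvPolynomial.X j.succ =
          (MvPolynomial.X 0 * r + MvPolynomial.rename Fin.succ (qP k m p)) *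
            MvPolynomial.X j.succ := by rw [← hr]
        _ = _ := by ring

theorem qP_eq_zero (m : ℕ) (p : MvPolynomial (Fin (m + 1)) k) :
    qP k m p = 0 ↔ MvPolynomial.X 0 ∣ p := by
  constructor
  · intro h
    obtain ⟨r, hr⟩ := qP_sub m p
    rw [h, map_zero, add_zero] at hr
    exact ⟨r, hr⟩
  · rintro ⟨r, rfl⟩
    rw [map_mul, qP_X_zero, zero_mul]

/-- Division by the first variable, on `An`. -/
noncomputable def qA (k : Type u) [Field k] (m : ℕ) : An k (m + 1) →ₐ[k] An k m :=
  ((toAn k m).toAlgHom.comp (qP k m)).comp (toAn k (m + 1)).symm.toAlgHom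

theorem qA_toAn (m : ℕ) (p : MvPolynomial (Fin (m + 1)) k) :
    qA k m (toAn k (m + 1) p) = toAn k m (qP k m p) := by
  change toAn k m (qP k m ((toAn k (m + 1)).symm (toAn k (m + 1) p))) = _
  rw [AlgEquiv.symm_apply_apply]

theorem zn_toAn (m : ℕ) (p : MvPolynomial (Fin m) k) :
    zn k m (toAn k m p) = MvPolynomial.aeval (fun _ => (0 : k)) p := by
  change MvPolynomial.aeval (fun _ => (0 : k)) ((toAn k m).symm (toAn k m p)) = _
  rw [AlgEquiv.symm_apply_apply]

theorem zn_comp_qA (m : ℕ) : (zn k m).comp (qA k m) = zn k (m + 1) := by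
  ext a
  obtain ⟨p, rfl⟩ := (toAn k (m + 1)).surjective a
  rw [AlgHom.comp_apply, qA_toAn, zn_toAn, zn_toAn]
  have h1 : (MvPolynomial.aeval (fun _ => (0 : k))).comp (qP k m) =
      (MvPolynomial.aeval (fun _ => (0 : k)) : MvPolynomial (Fin (m + 1)) k →ₐ[k] k) := by
    apply MvPolynomial.algHom_ext
    intro i
    refine Fin.cases ?_ (fun j => ?_) i
    · rw [AlgHom.comp_apply, qP_X_zero, map_zero, MvPolynomial.aeval_X]
    · rw [AlgHom.comp_apply, qP_X_succ, MvPolynomial.aeval_X, MvPolynomial.aeval_X]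
  rw [← h1]
  rfl

end Poly

end Pool.Agent.TG82
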