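import Pool.Agent.Lib.TG_h82.PolyF
import Pool.Agent.Lib.TGJ.Iface

/-!
# TANK G, block C: the residue maps of the integral closure of `k[f]` at the primes over `(f 0)`
-/

set_option autoImplicit false

namespace Pool.Agent.TG82

open Pool.Agent.TG (ncl up)
open Pool.Agent.TGJ (kf icf Over0)

universe u

section Res

variable {k : Type u} [Field k] {K : Type u} [Field K] [Algebra k K] {m : ℕ}

/-- Polynomials in `f`, in the integral closure. -/
noncomputable def toI (f : Fin m → K) : MvPolynomial (Fin m) k →ₐ[k] icf k f :=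
  MvPolynomial.aeval (TGJ.icf.X f)

theorem toI_coe (f : Fin m → K) (p : MvPolynomial (Fin m) k) :
    ((toI f p : icf k f) : K) = MvPolynomial.aeval f p := by
  have h1 : (icf k f).val.comp (toI f) = MvPolynomial.aeval f := by
    apply MvPolynomial.algHom_ext
    intro i
    rw [AlgHom.comp_apply, toI, MvPolynomial.aeval_X, MvPolynomial.aeval_X]
    rfl
  rw [← h1]
  rfl

theorem toI_injective {f : Fin m → K} (hf : AlgebraicIndependent k f) :
    Function.Injective (toI (k := k) f) := by
  intro p q h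
  apply hf
  rw [← toI_coe, ← toI_coe, h]

theorem mem_kf {f : Fin m → K} {a : K} :
    a ∈ kf k f ↔ ∃ p : MvPolynomial (Fin m) k, MvPolynomial.aeval f p = a := by
  unfold kf
  rw [Algebra.adjoin_range_eq_range_aeval]
  exact Iff.rfl

variable (f : Fin (m + 1) → K)

/-- The family `f 1, .., f m` in the residue field at `Q`. -/
noncomputable def wbar (Q : PrimeSpectrum (icf k f)) : Fin m → Q.asIdeal.ResidueField :=
  fun i => algebraMap (icf k f) Q.asIdeal.ResidueField (TGJ.icf.X f i.succ)

/-- `Q` lies over the prime `(f 0)` of `k[f]`. -/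
def Lies (Q : PrimeSpectrum (icf k f)) : Prop :=
  ∀ p : MvPolynomial (Fin (m + 1)) k, toI f p ∈ Q.asIdeal ↔ MvPolynomial.X 0 ∣ p

variable {f}

theorem res_toI {Q : PrimeSpectrum (icf k f)} (hQ : Lies f Q)
    (p : MvPolynomial (Fin (m + 1)) k) :
    algebraMap (icf k f) Q.asIdeal.ResidueField (toI f p) =
      MvPolynomial.aeval (wbar f Q) (qP k m p) := by
  have h1 : (IsScalarTower.toAlgHom k (icf k f) Q.asIdeal.ResidueField).comp (toI f) =
      (MvPolynomial.aeval (wbar f Q)).comp (qP k m) := by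
    apply MvPolynomial.algHom_ext
    intro i
    refine Fin.cases ?_ (fun j => ?_) i
    · rw [AlgHom.comp_apply, AlgHom.comp_apply, qP_X_zero, map_zero]
      change algebraMap (icf k f) Q.asIdeal.ResidueField (toI f (MvPolynomial.X 0)) = 0
      rw [Ideal.algebraMap_residueField_eq_zero]
      exact (hQ _).2 dvd_rfl
    · rw [AlgHom.comp_apply, AlgHom.comp_apply, qP_X_succ, MvPolynomial.aeval_X]
      change algebraMap (icf k f) Q.asIdeal.ResidueField (toI f (MvPolynomial.X j.succ)) = _
      rw [toI, MvPolynomial.aeval_X]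
      rfl
  exact DFunLike.congr_fun h1 p

theorem wbar_indep {Q : PrimeSpectrum (icf k f)} (hQ : Lies f Q) :
    AlgebraicIndependent k (wbar f Q) := by
  change Function.Injective _
  rw [injective_iff_map_eq_zero]
  intro p hp
  have h1 := res_toI hQ (MvPolynomial.rename Fin.succ p)
  rw [qP_rename, hp, Ideal.algebraMap_residueField_eq_zero, hQ, ← qP_eq_zero, qP_rename] at h1
  exact h1

theorem res_mem {Q : PrimeSpectrum (icf k f)} (hQ : Lies f Q) (c : icf k f) :
    algebraMap (icf k f) Q.asIdeal.ResidueField c ∈ icf k (wbar f Q) := by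
  obtain ⟨p, hp, h0⟩ := c.2
  -- the residue map on `k[f]`
  have h1 : ∀ a : kf k f, algebraMap (icf k f) Q.asIdeal.ResidueField ⟨a, TGJ.kf_le_icf f a.2⟩ ∈
      kf k (wbar f Q) := by
    rintro ⟨a, ha⟩
    obtain ⟨q, rfl⟩ := mem_kf.1 ha
    have h2 : (⟨MvPolynomial.aeval f q, TGJ.kf_le_icf f ha⟩ : icf k f) = toI f q :=
      Subtype.ext (toI_coe f q).symm
    rw [h2, res_toI hQ]
    exact mem_kf.2 ⟨_, rfl⟩
  let ψ : kf k f →+* kf k (wbar f Q) := RingHom.codRestrict
    ((algebraMap (icf k f) Q.asIdeal.ResidueField).comp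
      (Subalgebra.inclusion (TGJ.kf_le_icf f)).toRingHom) (kf k (wbar f Q)) h1
  refine ⟨p.map ψ, hp.map _, ?_⟩
  rw [Polynomial.eval₂_map]
  have h2 : (algebraMap (kf k (wbar f Q)) Q.asIdeal.ResidueField).comp ψ =
      (algebraMap (icf k f) Q.asIdeal.ResidueField).comp
        (Subalgebra.inclusion (TGJ.kf_le_icf f)).toRingHom := rfl
  rw [h2, ← Polynomial.hom_eval₂]
  have h3 : Polynomial.eval₂ (Subalgebra.inclusion (TGJ.kf_le_icf f)).toRingHom c p = 0 := by
    apply Subtype.ext
    have h4 := Polynomial.hom_eval₂ p (Subalgebra.inclusion (TGJ.kf_le_icf f)).toRingHom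
      (icf k f).val.toRingHom c
    exact h4.trans h0
  rw [h3, map_zero]

/-- The residue map. -/
noncomputable def resI {Q : PrimeSpectrum (icf k f)} (hQ : Lies f Q) :
    icf k f →ₐ[k] icf k (wbar f Q) :=
  AlgHom.codRestrict (IsScalarTower.toAlgHom k (icf k f) Q.asIdeal.ResidueField) _ (res_mem hQ)

theorem resI_coe {Q : PrimeSpectrum (icf k f)} (hQ : Lies f Q) (c : icf k f) :
    ((resI hQ c : icf k (wbar f Q)) : Q.asIdeal.ResidueField) =
      algebraMap (icf k f) Q.asIdeal.ResidueField c := rfl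

end Res

end Pool.Agent.TG82
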