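import Pool.Agent.Lib.TG_h82.Rho

/-!
# TANK G, block C, J1: the local degree bounds the decomposition groups
-/

set_option autoImplicit false

namespace Pool.Agent.TG82

open Pool.Agent.TG (ncl up Ov stab)

universe u

section Gal

variable {k F L N : Type u} [Field k] [Field F] [Field L] [Field N] [Algebra k F] [Algebra k L]
  [Algebra k N] [Algebra F L] [Algebra F N] [IsScalarTower k F L] [IsScalarTower k F N]
  [FiniteDimensional F L] [FiniteDimensional F N]

omit [FiniteDimensional F N] in
theorem toC_range_integral (A : Subalgebra k F) (d : ncl (up N A)) :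
    IsIntegral (toC N A).range d := by
  obtain ⟨p, hp, hpd⟩ := d.2
  let φ : up N A →+* (toC N A).range := RingHom.codRestrict (
    (algebraMap (up N A) N).codRestrict (ncl (up N A)).toSubring
      (fun b => TG.le_ncl _ b.2)) (toC N A).range.toSubring (by
      rintro ⟨_, b, hb, rfl⟩
      exact ⟨⟨b, hb⟩, rfl⟩)
  refine ⟨p.map φ, hp.map _, ?_⟩
  rw [Polynomial.eval₂_map]
  apply Subtype.ext
  have h2 : (ncl (up N A)).val (Polynomial.eval₂ ((algebraMap (toC N A).range
      (ncl (up N A))).comp φ) d p) = 0 := by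
    have h3 := Polynomial.hom_eval₂ p ((algebraMap (toC N A).range
      (ncl (up N A))).comp φ) ((ncl (up N A)).val : ncl (up N A) →+* N) d
    refine h3.trans ?_
    exact hpd
  exact h2

omit [FiniteDimensional F N] in
/-- The point of the integral closure defined by a valuation ring. -/
theorem exists_point [IsAlgClosed k] (A : Subalgebra k F) (z : A →ₐ[k] k)
    (W : ValuationSubring N) (hW : Ov k W)
    (hz : ∀ a : A, W.valuation (algebraMap F N a - algebraMap k N (z a)) < 1) :
    ∃ Q : ncl (up N A) →ₐ[k] k, Q.comp (toC N A) = z ∧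
      ∀ a, Q a = 0 ↔ W.valuation (a : N) < 1 := by
  have hAW : ∀ a ∈ up N A, a ∈ W := by
    rintro _ ⟨a, ha, rfl⟩
    have h2 : algebraMap F N a - algebraMap k N (z ⟨a, ha⟩) ∈ W :=
      (W.valuation_le_one_iff _).1 (hz ⟨a, ha⟩).le
    have h3 := add_mem h2 (hW (z ⟨a, ha⟩))
    rw [sub_add_cancel] at h3
    exact h3
  have hCW : ∀ a ∈ ncl (up N A), a ∈ W := TG.ncl_mem hAW
  let P : Ideal (ncl (up N A)) :=
    { carrier := {a | W.valuation (a : N) < 1}
      add_mem' := fun {a b} (ha : W.valuation (a : N) < 1) (hb : W.valuation (b : N) < 1) =>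
        lt_of_le_of_lt (Valuation.map_add _ _ _) (max_lt ha hb)
      zero_mem' := by
        change W.valuation ((0 : ncl (up N A)) : N) < 1
        rw [ZeroMemClass.coe_zero, map_zero]
        exact zero_lt_one
      smul_mem' := fun c a (ha : W.valuation (a : N) < 1) => by
        change W.valuation ((c * a : ncl (up N A)) : N) < 1
        rw [MulMemClass.coe_mul, map_mul]
        exact mul_lt_one_of_nonneg_of_lt_one_right
          ((W.valuation_le_one_iff _).2 (hCW _ c.2)) zero_le' ha }
  have hmem : ∀ a, a ∈ P ↔ W.valuation (a : N) < 1 := fun a => Iff.rfl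
  have hP : P.IsPrime := by
    refine ⟨?_, fun {a b} hab => ?_⟩
    · rw [Ne, Ideal.eq_top_iff_one, hmem, OneMemClass.coe_one, map_one]
      exact lt_irrefl _
    · rw [hmem, MulMemClass.coe_mul, map_mul] at hab
      rw [hmem, hmem]
      by_contra hcon
      push Not at hcon
      have h1 := (W.valuation_le_one_iff _).2 (hCW _ a.2)
      have h2 := (W.valuation_le_one_iff _).2 (hCW _ b.2)
      rw [le_antisymm h1 hcon.1, le_antisymm h2 hcon.2, mul_one] at hab
      exact lt_irrefl _ hab
  have hPz : P.comap (toC N A) = RingHom.ker z := by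
    ext a
    rw [Ideal.mem_comap, hmem, toC_coe, RingHom.mem_ker]
    constructor
    · intro h
      by_contra h0
      have h1 : W.valuation (algebraMap k N (z a)) < 1 := by
        have h2 : algebraMap k N (z a) = algebraMap F N a -
          (algebraMap F N a - algebraMap k N (z a)) := by ring
        rw [h2]
        exact lt_of_le_of_lt (Valuation.map_sub _ _ _) (max_lt h (hz a))
      have h3 : W.valuation (algebraMap k N (z a)⁻¹) ≤ 1 :=
        (W.valuation_le_one_iff _).2 (hW _)
      have h4 : W.valuation (algebraMap k N (z a)) * W.valuation (algebraMap k N (z a)⁻¹) = 1 := by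
        rw [← map_mul, ← map_mul, mul_inv_cancel₀ h0, map_one, map_one]
      have h5 : W.valuation (algebraMap k N (z a)) * W.valuation (algebraMap k N (z a)⁻¹) < 1 :=
        mul_lt_one_of_lt_of_le h1 h3
      rw [h4] at h5
      exact lt_irrefl _ h5
    · intro h
      have h1 := hz a
      rw [h, map_zero, sub_zero] at h1
      exact h1
  obtain ⟨Q, hQ1, hQ2⟩ := exists_of_prime (toC N A) (toC_range_integral A) z P hPz
  exact ⟨Q, hQ1, fun a => (hQ2 a).trans (hmem a)⟩

omit [FiniteDimensional F L] [FiniteDimensional F N] in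
theorem stab_comp [IsAlgClosed k] {A : Subalgebra k F} {W : ValuationSubring N}
    (Q : ncl (up N A) →ₐ[k] k) (hQ : ∀ a, Q a = 0 ↔ W.valuation (a : N) < 1)
    {σ : N ≃ₐ[F] N} (hσ : σ ∈ stab W A) : Q.comp (mapC A (σ : N →ₐ[F] N)) = Q := by
  refine AlgHom.ext fun a => ?_
  have h1 : Q (a - algebraMap k _ (Q a)) = 0 := by
    rw [map_sub, AlgHom.commutes]
    exact sub_self _
  have h2 := (hσ _ (a - algebraMap k _ (Q a)).2).2 ((hQ _).1 h1)
  have h3 : Q (mapC A (σ : N →ₐ[F] N) (a - algebraMap k _ (Q a))) = 0 := (hQ _).2 h2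
  rw [map_sub, map_sub, AlgHom.commutes, AlgHom.commutes, sub_eq_zero] at h3
  exact h3

/-- **The local degree bounds the index of the decomposition group.** -/
theorem relIndex_le_rho [IsAlgClosed k] {A : Subalgebra k F}
    (hA : ∀ b : F, IsIntegral A b → b ∈ A) (z : A →ₐ[k] k) (W : ValuationSubring N)
    (hW : Ov k W)
    (hz : ∀ a : A, W.valuation (algebraMap F N a - algebraMap k N (z a)) < 1)
    (j : L →ₐ[F] N) : ∃ x : ncl (up L A) →ₐ[k] k, x.comp (toC L A) = z ∧
      (∀ a, x a = 0 ↔ W.valuation (j (a : L)) < 1) ∧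
      j.fieldRange.fixingSubgroup.relIndex (stab W A) ≤ rho A x := by
  classical
  obtain ⟨Q, hQz, hQ⟩ := exists_point A z W hW hz
  let x : ncl (up L A) →ₐ[k] k := Q.comp (mapC A j)
  have hxz : x.comp (toC L A) = z := by
    change (Q.comp (mapC A j)).comp (toC L A) = z
    rw [AlgHom.comp_assoc, mapC_comp_toC, hQz]
  refine ⟨x, hxz, fun a => hQ (mapC A j a), ?_⟩
  let Ω := AlgebraicClosure N
  let ι : N →ₐ[F] Ω := IsScalarTower.toAlgHom F N Ω
  obtain ⟨QΩ, hQΩ⟩ := exists_extend_ncl A ι Q
  have hxQ : x.comp (toC L A) = QΩ.comp (toC Ω A) := by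
    rw [hxz, ← hQz, ← hQΩ, AlgHom.comp_assoc, mapC_comp_toC]
  rw [rho_eq hA QΩ x hxQ, rhoQ]
  set D := stab W A with hD
  set H := j.fieldRange.fixingSubgroup with hH
  have hfinN : Finite (N ≃ₐ[F] N) := inferInstance
  have hfin : Finite (L →ₐ[F] Ω) := inferInstance
  let Φ : (D ⧸ H.subgroupOf D) → {τ : L →ₐ[F] Ω // cen A QΩ τ = x} := fun q =>
    ⟨ι.comp ((((q.out : D) : N ≃ₐ[F] N) : N →ₐ[F] N).comp j), by
      refine AlgHom.ext fun a => ?_
      have h1 := DFunLike.congr_fun hQΩ
        (mapC A (((q.out : D) : N ≃ₐ[F] N) : N →ₐ[F] N) (mapC A j a))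
      have h2 := DFunLike.congr_fun (stab_comp Q hQ (q.out : D).2) (mapC A j a)
      exact h1.trans h2⟩
  have hΦ : Function.Injective Φ := by
    intro q q' hqq
    have h0 : ∀ a : L, ((q.out : D) : N ≃ₐ[F] N) (j a) = ((q'.out : D) : N ≃ₐ[F] N) (j a) := by
      intro a
      have h1 := DFunLike.congr_fun (congrArg Subtype.val hqq) a
      exact ι.toRingHom.injective h1
    have h1 : ((q.out : D) : N ≃ₐ[F] N)⁻¹ * ((q'.out : D) : N ≃ₐ[F] N) ∈ H := by
      rintro ⟨_, a, rfl⟩
      change (((q.out : D) : N ≃ₐ[F] N)⁻¹ * ((q'.out : D) : N ≃ₐ[F] N)) (j a) = j a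
      rw [AlgEquiv.mul_apply, ← h0 a]
      exact AlgEquiv.symm_apply_apply _ _
    have h3 : (QuotientGroup.mk q.out : D ⧸ H.subgroupOf D) = QuotientGroup.mk q'.out := by
      rw [QuotientGroup.eq, Subgroup.mem_subgroupOf]
      exact h1
    rwa [QuotientGroup.out_eq', QuotientGroup.out_eq'] at h3
  have hcard : H.relIndex D ≤ Nat.card {τ : L →ₐ[F] Ω // cen A QΩ τ = x} := by
    rw [Subgroup.relIndex, Subgroup.index]
    exact Nat.card_le_card_of_injective Φ hΦ
  exact hcard.trans (Nat.le_mul_of_pos_left _ (NeZero.pos _))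

/-- The local degrees bound the decomposition groups, interface `LDeg`. -/
theorem ldeg_of_rho [IsAlgClosed k] {A : Subalgebra k F}
    (hA : ∀ b : F, IsIntegral A b → b ∈ A) (z : A →ₐ[k] k) (v₀ : ValuationSubring F)
    (hv : Ov k v₀) (hz : ∀ a : A, v₀.valuation ((a : F) - algebraMap k F (z a)) < 1) (d : ℕ)
    (hd : ∀ x : ncl (up L A) →ₐ[k] k, x.comp (toC L A) = z → rho A x ≤ d) :
    TG.LDeg L v₀ A d := by
  intro N _ _ _ _ _ _ j W hW
  have hWk : Ov k W := by
    intro c
    have h1 := hv c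
    rw [← hW] at h1
    have h2 : algebraMap F N (algebraMap k F c) ∈ W := h1
    rwa [← IsScalarTower.algebraMap_apply] at h2
  have hWz : ∀ a : A, W.valuation (algebraMap F N a - algebraMap k N (z a)) < 1 := by
    intro a
    have h1 := hz a
    rw [← hW, TG.comap_lt_one] at h1
    rwa [map_sub, ← IsScalarTower.algebraMap_apply] at h1
  obtain ⟨x, hx, -, h⟩ := relIndex_le_rho hA z W hWk hWz j
  exact h.trans (hd x hx)

end Gal

end Pool.Agent.TG82
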